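import Pool.Agent.MP_92191b_al.K6.Basic

/-! Sections of tight relations. -/

set_option linter.unusedSectionVars false

namespace Pool.Agent.MP_92191b_al.K6

open Finset Function Equiv

variable {ι α : Type} [Fintype ι] [DecidableEq ι] [Fintype α] [DecidableEq α]

namespace SecT

theorem ham_sum (c c' : ι → α) : hammingDist c c' = ∑ r, nq (c r) (c' r) := by
  rw [hammingDist, card_filter]
  refine sum_congr rfl fun r _ => ?_
  simp only [nq, ne_eq, ite_not]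

theorem ham_eq (S : Finset ι) (σ : ι → Perm α) {c d c' d' : ι → α}
    (h : ∀ r, r ∉ S → c r = σ r (d r)) (h' : ∀ r, r ∉ S → c' r = σ r (d' r))
    (he : ∑ r ∈ S, nq (c r) (c' r) = ∑ r ∈ S, nq (d r) (d' r)) :
    hammingDist c c' = hammingDist d d' := by
  rw [ham_sum, ham_sum, ← sum_add_sum_compl S, ← sum_add_sum_compl S (fun r => nq (d r) (d' r)),
    he]
  congr 1
  refine sum_congr rfl fun r hr => ?_
  rw [h r (mem_compl.1 hr), h' r (mem_compl.1 hr), nq_perm]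

theorem ham_comp (π : Perm ι) (c c' : ι → α) :
    hammingDist (c ∘ π) (c' ∘ π) = hammingDist c c' := by
  rw [ham_sum, ham_sum]
  exact Equiv.sum_comp π fun r => nq (c r) (c' r)

theorem comp_inj (π : Perm ι) {c c' : ι → α} (h : c ∘ π = c' ∘ π) : c = c' := by
  funext r
  simpa using congrFun h (π.symm r)

theorem tight_c {T : Rel2 ι α} (h : Tight T) (π : Perm ι) :
    Tight fun c d => T (c ∘ π) d where
  sep c d c' d' h1 h2 he := by
    obtain ⟨e1, e2⟩ := h.sep _ _ _ _ h1 h2 (by rw [ham_comp, he])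
    exact ⟨comp_inj π e1, e2⟩
  ex σ ρ := by
    obtain ⟨c, d, h1, h2⟩ := h.ex (fun l => σ (π l)) (ρ * π)
    refine ⟨c ∘ π.symm, d, ?_, fun l => ?_⟩
    · have : (c ∘ π.symm) ∘ π = c := by funext r; simp
      rwa [this]
    · simpa using h2 (π.symm l)

theorem tight_d {T : Rel2 ι α} (h : Tight T) (π : Perm ι) :
    Tight fun c d => T c (d ∘ π) where
  sep c d c' d' h1 h2 he := by
    obtain ⟨e1, e2⟩ := h.sep _ _ _ _ h1 h2 (by rw [ham_comp, he])
    exact ⟨e1, comp_inj π e2⟩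
  ex σ ρ := by
    obtain ⟨c, d, h1, h2⟩ := h.ex σ (π⁻¹ * ρ)
    refine ⟨c, d ∘ π.symm, ?_, fun l => h2 l⟩
    have : (d ∘ π.symm) ∘ π = d := by funext r; simp
    rwa [this]

theorem sw_sw (i j : ι) (c : ι → α) : (c ∘ swap i j) ∘ swap i j = c := by
  funext r; simp

theorem sec_c12 (T : Rel2 ι α) (σ : ι → Perm α) {i j l : ι} (hi : l ≠ i) (hj : l ≠ j) :
    c12 (sec T σ i j l) = sec (fun c d => T (c ∘ swap i j) d) σ i j l := by
  funext c1 c2 c3 d1 d2 d3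
  refine propext ⟨?_, ?_⟩
  · rintro ⟨c, d, h1, h2, h3, h4, h5, h6⟩
    refine ⟨c ∘ swap i j, d, by simpa only [sw_sw] using h1, fun r a b e => ?_, by simpa using h4,
      by simpa using h3, ?_, h6⟩
    · rw [comp_apply, swap_apply_of_ne_of_ne a b]; exact h2 r a b e
    · rw [comp_apply, swap_apply_of_ne_of_ne hi hj]; exact h5
  · rintro ⟨c, d, h1, h2, h3, h4, h5, h6⟩
    refine ⟨c ∘ swap i j, d, h1, fun r a b e => ?_, by simpa using h4,
      by simpa using h3, ?_, h6⟩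
    · rw [comp_apply, swap_apply_of_ne_of_ne a b]; exact h2 r a b e
    · rw [comp_apply, swap_apply_of_ne_of_ne hi hj]; exact h5

theorem sec_c23 (T : Rel2 ι α) (σ : ι → Perm α) {i j l : ι} (hij : i ≠ j) (hi : l ≠ i) :
    c23 (sec T σ i j l) = sec (fun c d => T (c ∘ swap j l) d) σ i j l := by
  funext c1 c2 c3 d1 d2 d3
  refine propext ⟨?_, ?_⟩
  · rintro ⟨c, d, h1, h2, h3, h4, h5, h6⟩
    refine ⟨c ∘ swap j l, d, by simpa only [sw_sw] using h1, fun r a b e => ?_, ?_, by simpa using h5,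
      by simpa using h4, h6⟩
    · rw [comp_apply, swap_apply_of_ne_of_ne b e]; exact h2 r a b e
    · rw [comp_apply, swap_apply_of_ne_of_ne hij hi.symm]; exact h3
  · rintro ⟨c, d, h1, h2, h3, h4, h5, h6⟩
    refine ⟨c ∘ swap j l, d, h1, fun r a b e => ?_, ?_, by simpa using h5,
      by simpa using h4, h6⟩
    · rw [comp_apply, swap_apply_of_ne_of_ne b e]; exact h2 r a b e
    · rw [comp_apply, swap_apply_of_ne_of_ne hij hi.symm]; exact h3

theorem sec_d12 (T : Rel2 ι α) (σ : ι → Perm α) {i j l : ι} (hi : l ≠ i) (hj : l ≠ j) :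
    d12 (sec T σ i j l) = sec (fun c d => T c (d ∘ swap i j)) σ i j l := by
  funext c1 c2 c3 d1 d2 d3
  refine propext ⟨?_, ?_⟩
  · rintro ⟨c, d, h1, h2, h3, h4, h5, h6, h7, h8⟩
    refine ⟨c, d ∘ swap i j, by simpa only [sw_sw] using h1, fun r a b e => ?_, h3, h4, h5, by simpa using h7,
      by simpa using h6, ?_⟩
    · rw [comp_apply, swap_apply_of_ne_of_ne a b]; exact h2 r a b e
    · rw [comp_apply, swap_apply_of_ne_of_ne hi hj]; exact h8
  · rintro ⟨c, d, h1, h2, h3, h4, h5, h6, h7, h8⟩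
    refine ⟨c, d ∘ swap i j, h1, fun r a b e => ?_, h3, h4, h5, by simpa using h7,
      by simpa using h6, ?_⟩
    · rw [comp_apply, swap_apply_of_ne_of_ne a b]; exact h2 r a b e
    · rw [comp_apply, swap_apply_of_ne_of_ne hi hj]; exact h8

theorem sec_d23 (T : Rel2 ι α) (σ : ι → Perm α) {i j l : ι} (hij : i ≠ j) (hi : l ≠ i) :
    d23 (sec T σ i j l) = sec (fun c d => T c (d ∘ swap j l)) σ i j l := by
  funext c1 c2 c3 d1 d2 d3
  refine propext ⟨?_, ?_⟩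
  · rintro ⟨c, d, h1, h2, h3, h4, h5, h6, h7, h8⟩
    refine ⟨c, d ∘ swap j l, by simpa only [sw_sw] using h1, fun r a b e => ?_, h3, h4, h5, ?_,
      by simpa using h8, by simpa using h7⟩
    · rw [comp_apply, swap_apply_of_ne_of_ne b e]; exact h2 r a b e
    · rw [comp_apply, swap_apply_of_ne_of_ne hij hi.symm]; exact h6
  · rintro ⟨c, d, h1, h2, h3, h4, h5, h6, h7, h8⟩
    refine ⟨c, d ∘ swap j l, h1, fun r a b e => ?_, h3, h4, h5, ?_,
      by simpa using h8, by simpa using h7⟩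
    · rw [comp_apply, swap_apply_of_ne_of_ne b e]; exact h2 r a b e
    · rw [comp_apply, swap_apply_of_ne_of_ne hij hi.symm]; exact h6

theorem orb_sec {T : Rel2 ι α} (h : Tight T) (σ : ι → Perm α) {i j l : ι} (hij : i ≠ j)
    (hi : l ≠ i) (hj : l ≠ j) {Q : R6 α} (hQ : Orb (sec T σ i j l) Q) :
    ∃ T' : Rel2 ι α, Tight T' ∧ Q = sec T' σ i j l := by
  induction hQ with
  | refl => exact ⟨T, h, rfl⟩
  | c12 _ ih =>
    obtain ⟨T', h1, rfl⟩ := ih
    exact ⟨_, tight_c h1 _, sec_c12 T' σ hi hj⟩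
  | c23 _ ih =>
    obtain ⟨T', h1, rfl⟩ := ih
    exact ⟨_, tight_c h1 _, sec_c23 T' σ hij hi⟩
  | d12 _ ih =>
    obtain ⟨T', h1, rfl⟩ := ih
    exact ⟨_, tight_d h1 _, sec_d12 T' σ hi hj⟩
  | d23 _ ih =>
    obtain ⟨T', h1, rfl⟩ := ih
    exact ⟨_, tight_d h1 _, sec_d23 T' σ hij hi⟩

theorem ex3 {T : Rel2 ι α} (h : Tight T) (σ : ι → Perm α) {i j l : ι} (hij : i ≠ j)
    (hi : l ≠ i) (hj : l ≠ j) : Ex3 (sec T σ i j l) := by
  intro σ1 σ2 σ3
  obtain ⟨c, d, h1, h2⟩ := h.ex (update (update (update σ i σ1) j σ2) l σ3) 1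
  refine ⟨d i, d j, d l, c, d, h1, fun r a b e => ?_, ?_, ?_, ?_, rfl, rfl, rfl⟩
  · simpa [update_of_ne a, update_of_ne b, update_of_ne e] using h2 r
  · simpa [update_of_ne hij, update_of_ne hi.symm] using h2 i
  · simpa [update_of_ne hj.symm] using h2 j
  · simpa using h2 l

theorem sep3 {T : Rel2 ι α} (h : Tight T) (σ : ι → Perm α) {i j l : ι} (hij : i ≠ j)
    (hi : l ≠ i) (hj : l ≠ j) : Sep3 (sec T σ i j l) := by
  rintro _ _ _ _ _ _ _ _ _ _ _ _ ⟨c, d, h1, h2, rfl, rfl, rfl, rfl, rfl, rfl⟩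
    ⟨c', d', h1', h2', rfl, rfl, rfl, rfl, rfl, rfl⟩ he
  have hn : i ∉ ({j, l} : Finset ι) := by simp [hij, hi.symm]
  have hn' : ∀ r, r ∉ ({i, j, l} : Finset ι) → r ≠ i ∧ r ≠ j ∧ r ≠ l := fun r hr => by
    simpa [not_or] using hr
  obtain ⟨rfl, rfl⟩ := h.sep _ _ _ _ h1 h1' (ham_eq {i, j, l} σ
    (fun r hr => h2 r (hn' r hr).1 (hn' r hr).2.1 (hn' r hr).2.2)
    (fun r hr => h2' r (hn' r hr).1 (hn' r hr).2.1 (hn' r hr).2.2)
    (by rw [sum_insert hn, sum_insert hn, sum_pair hj.symm, sum_pair hj.symm]; omega))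
  exact ⟨rfl, rfl, rfl, rfl, rfl, rfl⟩

theorem uniq {T : Rel2 ι α} (h : Tight T) (σ : ι → Perm α) {i j : ι} (hij : i ≠ j)
    (c d c' d' : ι → α) (h1 : Cell T σ i j c d) (h2 : Cell T σ i j c' d')
    (he : nq (c i) (c' i) + nq (c j) (c' j) = nq (d i) (d' i) + nq (d j) (d' j)) :
    c = c' ∧ d = d' := by
  have hn' : ∀ r, r ∉ ({i, j} : Finset ι) → r ≠ i ∧ r ≠ j := fun r hr => by
    simpa [not_or] using hr
  exact h.sep _ _ _ _ h1.1 h2.1 (ham_eq {i, j} σ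
    (fun r hr => h1.2 r (hn' r hr).1 (hn' r hr).2)
    (fun r hr => h2.2 r (hn' r hr).1 (hn' r hr).2)
    (by rw [sum_pair hij, sum_pair hij]; exact he))

end SecT

open SecT in
theorem secT : StmtSec ι α := by
  intro T h σ i j hij
  refine ⟨⟨?_, fun σ1 σ2 => ?_⟩, uniq h σ hij, fun l hi hj =>
    ⟨⟨sep3 h σ hij hi hj, fun Q hQ => ?_⟩, ?_, fun ρ => ?_, fun ρ => ?_⟩⟩
  · rintro _ _ _ _ _ _ _ _ ⟨c, d, h1, rfl, rfl, rfl, rfl⟩ ⟨c', d', h2, rfl, rfl, rfl, rfl⟩ he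
    obtain ⟨rfl, rfl⟩ := uniq h σ hij c d c' d' h1 h2 he
    exact ⟨rfl, rfl, rfl, rfl⟩
  · obtain ⟨c, d, h1, h2⟩ := h.ex (update (update σ i σ1) j σ2) 1
    refine ⟨d i, d j, c, d, ⟨h1, fun r a b => ?_⟩, ?_, ?_, rfl, rfl⟩
    · simpa [update_of_ne a, update_of_ne b] using h2 r
    · simpa [update_of_ne hij] using h2 i
    · simpa using h2 j
  · obtain ⟨T', h1, rfl⟩ := orb_sec h σ hij hi hj hQ
    exact ex3 h1 σ hij hi hj
  · funext c1 c2 d1 d2
    refine propext ⟨?_, ?_⟩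
    · rintro ⟨d3, c, d, h1, h2, h3, h4, h5, h6, h7, h8⟩
      refine ⟨c, d, ⟨h1, fun r a b => ?_⟩, h3, h4, h6, h7⟩
      by_cases e : r = l
      · rw [e, h5, h8]
      · exact h2 r a b e
    · rintro ⟨c, d, ⟨h1, h2⟩, h3, h4, h5, h6⟩
      exact ⟨d l, c, d, h1, fun r a b _ => h2 r a b, h3, h4, h2 l hi hj, h5, h6, rfl⟩
  · funext c3 c1 d3 d1
    refine propext ⟨?_, ?_⟩
    · rintro ⟨d2, c, d, h1, h2, h3, h4, h5, h6, h7, h8⟩
      refine ⟨c, d, ⟨h1, fun r a b => ?_⟩, h5, h3, h8, h6⟩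
      by_cases e : r = j
      · rw [e, h4, h7, update_self]
      · rw [update_of_ne e]; exact h2 r b e a
    · rintro ⟨c, d, ⟨h1, h2⟩, h3, h4, h5, h6⟩
      refine ⟨d j, c, d, h1, fun r a b e => ?_, h4, ?_, h3, h6, rfl, h5⟩
      · simpa [update_of_ne b] using h2 r e a
      · simpa using h2 j hj.symm hij.symm
  · funext c3 c2 d3 d2
    refine propext ⟨?_, ?_⟩
    · rintro ⟨d1, c, d, h1, h2, h3, h4, h5, h6, h7, h8⟩
      refine ⟨c, d, ⟨h1, fun r a b => ?_⟩, h5, h4, h8, h7⟩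
      by_cases e : r = i
      · rw [e, h3, h6, update_self]
      · rw [update_of_ne e]; exact h2 r e b a
    · rintro ⟨c, d, ⟨h1, h2⟩, h3, h4, h5, h6⟩
      refine ⟨d i, c, d, h1, fun r a b e => ?_, ?_, h4, h3, rfl, h6, h5⟩
      · simpa [update_of_ne a] using h2 r e b
      · simpa using h2 i hi.symm hij

end Pool.Agent.MP_92191b_al.K6
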