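import Pool.Agent.MP_92191b_al.K6.Defs

/-! Small lemmas shared by the files of this folder. -/

set_option linter.unusedSectionVars false

namespace Pool.Agent.MP_92191b_al.K6

open Finset Function Equiv

variable {ι α : Type} [Fintype ι] [DecidableEq ι] [Fintype α] [DecidableEq α]

@[simp] theorem nq_self {β : Type} [DecidableEq β] (a : β) : nq a a = 0 := if_pos rfl

theorem nq_of_ne {β : Type} [DecidableEq β] {a b : β} (h : a ≠ b) : nq a b = 1 := if_neg h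

theorem nq_comm {β : Type} [DecidableEq β] (a b : β) : nq a b = nq b a := by
  simp only [nq, eq_comm]

theorem nq_le {β : Type} [DecidableEq β] (a b : β) : nq a b ≤ 1 := by
  unfold nq; split_ifs <;> omega

@[simp] theorem nq_perm (σ : Perm α) (a b : α) : nq (σ a) (σ b) = nq a b := by
  simp only [nq, σ.apply_eq_iff_eq]

@[simp] theorem nz_self (a : α) : nz a a = false := by simp [nz]

theorem nz_of_ne {a b : α} (h : a ≠ b) : nz a b = true := by simp [nz, h]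

theorem nz_le_nq (a b z : α) : nq (nz a z) (nz b z) ≤ nq a b := by
  by_cases h : a = b
  · simp [h]
  · rw [nq_of_ne h]; exact nq_le _ _

theorem nq_le_bo (a b z : α) : nq a b ≤ bo (nz a z) (nz b z) := by
  by_cases h : a = b
  · simp [h]
  · rw [nq_of_ne h, bo, if_pos]
    by_cases ha : a = z
    · exact Or.inr (nz_of_ne fun hb => h (ha.trans hb.symm))
    · exact Or.inl (nz_of_ne ha)

theorem exists_notMem (l : List α) (h : l.length < Fintype.card α) : ∃ c, c ∉ l := by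
  by_contra! h'
  have : (univ : Finset α) ⊆ l.toFinset := fun c _ => List.mem_toFinset.2 (h' c)
  have h2 := (card_le_card this).trans l.toFinset_card_le
  rw [card_univ] at h2
  omega

theorem exists_ne1 (h : 2 ≤ Fintype.card α) (a : α) : ∃ x, x ≠ a := by
  simpa using exists_notMem [a] h

theorem exists_ne2 (h : 3 ≤ Fintype.card α) (a b : α) : ∃ x, x ≠ a ∧ x ≠ b := by
  simpa [not_or] using exists_notMem [a, b] h

theorem exists_ne3 (h : 4 ≤ Fintype.card α) (a b c : α) : ∃ x, x ≠ a ∧ x ≠ b ∧ x ≠ c := by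
  simpa [not_or] using exists_notMem [a, b, c] h

theorem exists_ne4 (h : 5 ≤ Fintype.card α) (a b c d : α) :
    ∃ x, x ≠ a ∧ x ≠ b ∧ x ≠ c ∧ x ≠ d := by
  simpa [not_or] using exists_notMem [a, b, c, d] h

theorem exists_ne5 (h : 6 ≤ Fintype.card α) (a b c d e : α) :
    ∃ x, x ≠ a ∧ x ≠ b ∧ x ≠ c ∧ x ≠ d ∧ x ≠ e := by
  simpa [not_or] using exists_notMem [a, b, c, d, e] h

theorem exists_perm1 (a a' : α) : ∃ σ : Perm α, σ a = a' := ⟨swap a a', swap_apply_left _ _⟩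

theorem exists_perm2 {a b a' b' : α} (h : a ≠ b) (h' : a' ≠ b') :
    ∃ σ : Perm α, σ a = a' ∧ σ b = b' := by
  refine ⟨swap (swap a a' b) b' * swap a a', ?_, by simp⟩
  rw [Perm.mul_apply, swap_apply_left]
  refine swap_apply_of_ne_of_ne (fun h'' => h ?_) h'
  exact (swap a a').injective (by rw [swap_apply_left]; exact h'')

theorem exists_perm3 {a b c a' b' c' : α} (hab : a ≠ b) (hac : a ≠ c) (hbc : b ≠ c)
    (hab' : a' ≠ b') (hac' : a' ≠ c') (hbc' : b' ≠ c') :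
    ∃ σ : Perm α, σ a = a' ∧ σ b = b' ∧ σ c = c' := by
  obtain ⟨τ, h1, h2⟩ := exists_perm2 hab hab'
  refine ⟨swap (τ c) c' * τ, ?_, ?_, by simp⟩
  · rw [Perm.mul_apply, h1]
    exact swap_apply_of_ne_of_ne (fun h => hac (τ.injective (h1.trans h))) hac'
  · rw [Perm.mul_apply, h2]
    exact swap_apply_of_ne_of_ne (fun h => hbc (τ.injective (h2.trans h))) hbc'

theorem Plane.dual {P : R4 α} (h : Plane P) : Plane (dual P) where
  sep c1 c2 d1 d2 c1' c2' d1' d2' h1 h2 he := by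
    obtain ⟨e1, e2, e3, e4⟩ := h.sep _ _ _ _ _ _ _ _ h1 h2 he.symm
    exact ⟨e3, e4, e1, e2⟩
  ex σ1 σ2 := by
    obtain ⟨d1, d2, hd⟩ := h.ex σ1⁻¹ σ2⁻¹
    exact ⟨σ1⁻¹ d1, σ2⁻¹ d2, by simpa [K6.dual] using hd⟩

theorem Plane.flp {P : R4 α} (h : Plane P) : Plane (flp P) where
  sep c1 c2 d1 d2 c1' c2' d1' d2' h1 h2 he := by
    obtain ⟨e1, e2, e3, e4⟩ := h.sep _ _ _ _ _ _ _ _ h1 h2 (by omega)
    exact ⟨e2, e1, e4, e3⟩
  ex σ1 σ2 := by
    obtain ⟨d1, d2, hd⟩ := h.ex σ2 σ1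
    exact ⟨d2, d1, hd⟩

theorem Is4.flp {P : R4 α} {x1 x2 y1 y2 : α} (h : Is4 P x1 x2 y1 y2) :
    Is4 (flp P) x2 x1 y2 y1 := fun c1 c2 d1 d2 => (h c2 c1 d2 d1).trans (by tauto)

theorem Is8.swap {P : R4 α} {a0 a1 x0 x1 y1 y2 : α} (h : Is8 P a0 a1 x0 x1 y1 y2) :
    Is8 P a1 a0 x1 x0 y1 y2 :=
  ⟨h.1.symm, h.2.1.symm, fun c1 c2 d1 d2 => (h.2.2 c1 c2 d1 d2).trans (by tauto)⟩

theorem pl_flp (T : Rel2 ι α) (σ : ι → Perm α) (i j : ι) : pl T σ j i = flp (pl T σ i j) := by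
  funext c1 c2 d1 d2
  refine propext ⟨?_, ?_⟩ <;> rintro ⟨c, d, ⟨h1, h2⟩, h3, h4, h5, h6⟩ <;>
    exact ⟨c, d, ⟨h1, fun r hi hj => h2 r hj hi⟩, h4, h3, h6, h5⟩

theorem Orb.trans {Q Q' Q'' : R6 α} (h : Orb Q Q') (h' : Orb Q' Q'') : Orb Q Q'' := by
  induction h' with
  | refl => exact h
  | c12 _ ih => exact ih.c12
  | c23 _ ih => exact ih.c23
  | d12 _ ih => exact ih.d12
  | d23 _ ih => exact ih.d23

theorem Orb.s12 {Q Q' : R6 α} (h : Orb Q Q') : Orb Q (s12 Q') := h.c12.d12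
theorem Orb.s23 {Q Q' : R6 α} (h : Orb Q Q') : Orb Q (s23 Q') := h.c23.d23
theorem Orb.s13 {Q Q' : R6 α} (h : Orb Q Q') : Orb Q (s13 Q') := h.s12.s23.s12

theorem Sep3.orb {Q Q' : R6 α} (h : Sep3 Q) (h' : Orb Q Q') : Sep3 Q' := by
  induction h' with
  | refl => exact h
  | _ _ ih =>
    intro c1 c2 c3 d1 d2 d3 c1' c2' c3' d1' d2' d3' h1 h2 he
    have := ih _ _ _ _ _ _ _ _ _ _ _ _ h1 h2 (by omega)
    tauto

theorem Sec.orb {Q Q' : R6 α} (h : Sec Q) (h' : Orb Q Q') : Sec Q' :=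
  ⟨h.sep.orb h', fun _ h'' => h.ex _ (h'.trans h'')⟩

theorem Nice.orb {Q Q' : R6 α} (h : Nice Q) (h' : Orb Q Q') : Nice Q' :=
  ⟨h.sec.orb h', fun _ h'' => h.no7 _ (h'.trans h''), fun _ h'' => h.mono _ (h'.trans h'')⟩

theorem Sec.plane12 {Q : R6 α} (h : Sec Q) (σ : Perm α) : Plane (p12 Q σ) where
  sep c1 c2 d1 d2 c1' c2' d1' d2' := by
    rintro ⟨d3, h1⟩ ⟨d3', h2⟩ he
    have := h.sep _ _ _ _ _ _ _ _ _ _ _ _ h1 h2 (by rw [nq_perm]; omega)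
    tauto
  ex σ1 σ2 := by
    obtain ⟨d1, d2, d3, hd⟩ := h.ex _ Orb.refl σ1 σ2 σ
    exact ⟨d1, d2, d3, hd⟩

theorem Sec.plane13 {Q : R6 α} (h : Sec Q) (σ : Perm α) : Plane (p13 Q σ) :=
  (h.orb Orb.refl.s23).plane12 σ

theorem Sec.plane32 {Q : R6 α} (h : Sec Q) (σ : Perm α) : Plane (p32 Q σ) :=
  (h.orb Orb.refl.s13).plane12 σ

theorem Sec.plane23 {Q : R6 α} (h : Sec Q) (σ : Perm α) : Plane (p23 Q σ) :=
  (h.orb Orb.refl.s12.s23).plane12 σ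

theorem Sec.plane31 {Q : R6 α} (h : Sec Q) (σ : Perm α) : Plane (p31 Q σ) :=
  (h.orb Orb.refl.s12.s13).plane12 σ

theorem p32_eq (Q : R6 α) (σ : Perm α) : p32 Q σ = p12 (s13 Q) σ := rfl
theorem p31_eq (Q : R6 α) (σ : Perm α) : p31 Q σ = p12 (s13 (s12 Q)) σ := rfl
theorem p13_eq (Q : R6 α) (σ : Perm α) : p13 Q σ = p12 (s23 Q) σ := rfl
theorem p23_eq (Q : R6 α) (σ : Perm α) : p23 Q σ = p12 (s23 (s12 Q)) σ := rfl

theorem Sec.dual {Q : R6 α} (h : Sec Q) : Sec (dual3 Q) where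
  sep c1 c2 c3 d1 d2 d3 c1' c2' c3' d1' d2' d3' h1 h2 he := by
    have := h.sep _ _ _ _ _ _ _ _ _ _ _ _ h1 h2 he.symm
    tauto
  ex Q' hQ' := by
    have h1 : Orb Q (dual3 Q') := by
      induction hQ' with
      | refl => exact Orb.refl
      | c12 _ ih => exact ih.d12
      | c23 _ ih => exact ih.d23
      | d12 _ ih => exact ih.c12
      | d23 _ ih => exact ih.c23
    intro σ1 σ2 σ3
    obtain ⟨d1, d2, d3, hd⟩ := h.ex _ h1 σ1⁻¹ σ2⁻¹ σ3⁻¹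
    exact ⟨σ1⁻¹ d1, σ2⁻¹ d2, σ3⁻¹ d3, by simpa [dual3] using hd⟩

end Pool.Agent.MP_92191b_al.K6
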