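import Pool.Agent.MP_92191b_al.K6.Basic

/-! Sections in the centred case. -/

set_option linter.unusedSectionVars false

namespace Pool.Agent.MP_92191b_al.K6

open Finset Function Equiv

variable {ι α : Type} [Fintype ι] [DecidableEq ι] [Fintype α] [DecidableEq α]

namespace CSec

theorem card_sum (V : Finset ι) : V.card = ∑ r, if r ∈ V then 1 else 0 := by simp

theorem card_symm (V V' : Finset ι) :
    (symmDiff V V').card = ∑ r, nq (decide (r ∈ V)) (decide (r ∈ V')) := by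
  rw [card_sum]
  refine sum_congr rfl fun r _ => ?_
  by_cases h : r ∈ V <;> by_cases h' : r ∈ V' <;> simp [mem_symmDiff, h, h', nq]

theorem card_un (V V' : Finset ι) :
    (V ∪ V').card = ∑ r, bo (decide (r ∈ V)) (decide (r ∈ V')) := by
  rw [card_sum]
  refine sum_congr rfl fun r _ => ?_
  by_cases h : r ∈ V <;> by_cases h' : r ∈ V' <;> simp [h, h', bo]

theorem ham (c c' : ι → α) : hammingDist c c' = ∑ r, nq (c r) (c' r) := by
  rw [hammingDist, card_sum]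
  refine sum_congr rfl fun r _ => ?_
  by_cases h : c r = c' r <;> simp [h, nq]

theorem key {C : Finset (ι → α)} {F : Finset ι → Prop} (hC : Cen C F) (z : ι → α)
    (S : Finset ι) {c c' : ι → α} (hc : c ∈ C) (hc' : c' ∈ C) {V V' : Finset ι} (hV : F V)
    (hV' : F V') (h : ∀ r, r ∉ S → (r ∈ V ↔ c r ≠ z r)) (h' : ∀ r, r ∉ S → (r ∈ V' ↔ c' r ≠ z r))
    (h1 : ∑ r ∈ S, nq (decide (r ∈ V)) (decide (r ∈ V')) ≤ ∑ r ∈ S, nq (c r) (c' r))
    (h2 : ∑ r ∈ S, nq (c r) (c' r) ≤ ∑ r ∈ S, bo (decide (r ∈ V)) (decide (r ∈ V'))) :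
    c = c' := by
  have e : ∀ r ∈ Sᶜ, decide (r ∈ V) = nz (c r) (z r) ∧ decide (r ∈ V') = nz (c' r) (z r) := by
    intro r hr
    have hr' := mem_compl.1 hr
    exact ⟨decide_eq_decide.2 (h r hr'), decide_eq_decide.2 (h' r hr')⟩
  refine hC.sep c hc c' hc' V V' hV hV' ?_ ?_
  · rw [card_symm, ham, ← sum_add_sum_compl S, ← sum_add_sum_compl S]
    refine add_le_add h1 (sum_le_sum fun r hr => ?_)
    rw [(e r hr).1, (e r hr).2]
    exact nz_le_nq _ _ _
  · rw [card_un, ham, ← sum_add_sum_compl S, ← sum_add_sum_compl S]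
    refine add_le_add h2 (sum_le_sum fun r hr => ?_)
    rw [(e r hr).1, (e r hr).2]
    exact nq_le_bo _ _ _

theorem exs {C : Finset (ι → α)} {F : Finset ι → Prop} (hC : Cen C F) (z : ι → α)
    (π : Perm ι) : ∃ c ∈ C, ∃ V, F V ∧ ∀ r, r ∈ V ↔ c (π.symm r) ≠ z (π.symm r) := by
  obtain ⟨c, hc, hF⟩ := hC.ex z π
  refine ⟨c, hc, _, hF, fun r => ?_⟩
  rw [mem_map_equiv]
  simp [df]

theorem dec {p : Prop} [Decidable p] {t : Bool} (h : p ↔ t = true) : decide p = t := by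
  cases t <;> simp_all

theorem nz_iff (a b : α) : nz a b = true ↔ a ≠ b := by simp [nz]

theorem ex4 {C : Finset (ι → α)} {F : Finset ι → Prop} (hC : Cen C F) (z : ι → α)
    {i1 i2 i3 i4 : ι} (h12 : i1 ≠ i2) (h13 : i1 ≠ i3) (h14 : i1 ≠ i4) (h23 : i2 ≠ i3)
    (h24 : i2 ≠ i4) (h34 : i3 ≠ i4) (z1 z2 z3 z4 : α) (π : Perm ι)
    (hπ : ∀ r, r ≠ i1 → r ≠ i2 → r ≠ i3 → r ≠ i4 → π.symm r = r) :
    ∃ (c z' : ι → α), z' i1 = z1 ∧ z' i2 = z2 ∧ z' i3 = z3 ∧ z' i4 = z4 ∧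
      csec4 C F z i1 i2 i3 i4 (c i1) (c i2) (c i3) (c i4)
        (nz (c (π.symm i1)) (z' (π.symm i1))) (nz (c (π.symm i2)) (z' (π.symm i2)))
        (nz (c (π.symm i3)) (z' (π.symm i3))) (nz (c (π.symm i4)) (z' (π.symm i4))) := by
  obtain ⟨c, hc, V, hV, h⟩ :=
    exs hC (update (update (update (update z i1 z1) i2 z2) i3 z3) i4 z4) π
  refine ⟨c, update (update (update (update z i1 z1) i2 z2) i3 z3) i4 z4, ?_, ?_, ?_, ?_,
    c, hc, V, hV, rfl, rfl, rfl, rfl, ?_, ?_, ?_, ?_, ?_⟩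
  · simp [h12, h13, h14]
  · simp [h23, h24]
  · simp [h34]
  · simp
  · rw [nz_iff]; exact h _
  · rw [nz_iff]; exact h _
  · rw [nz_iff]; exact h _
  · rw [nz_iff]; exact h _
  · intro r r1 r2 r3 r4
    rw [h, hπ r r1 r2 r3 r4]
    simp [r1, r2, r3, r4]

end CSec

open CSec in
theorem cSec : StmtCSec ι α := by
  intro C F hC z
  refine ⟨fun c hc c' hc' h h' => ?_, fun i j hij => ⟨?_, ?_⟩,
    fun i1 i2 i3 i4 h12 h13 h14 h23 h24 h34 => ⟨?_, ?_, ?_, ?_, ?_⟩⟩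
  · exact key hC z ∅ hc hc' h h' (fun r _ => by simp [df]) (fun r _ => by simp [df])
      (by simp) (by simp)
  · rintro _ _ t1 t2 _ _ t1' t2' ⟨c, hc, V, hV, rfl, rfl, a1, a2, h⟩
      ⟨c', hc', V', hV', rfl, rfl, b1, b2, h'⟩ h1 h2
    have := key hC z {i, j} hc hc' hV hV'
      (fun r hr => by
        simp only [mem_insert, mem_singleton, not_or] at hr
        exact h r hr.1 hr.2)
      (fun r hr => by
        simp only [mem_insert, mem_singleton, not_or] at hr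
        exact h' r hr.1 hr.2)
      (by rw [sum_pair hij, sum_pair hij, dec a1, dec a2, dec b1, dec b2]; exact h1)
      (by rw [sum_pair hij, sum_pair hij, dec a1, dec a2, dec b1, dec b2]; exact h2)
    subst this
    exact ⟨rfl, rfl⟩
  · intro z1 z2
    obtain ⟨c, hc, V, hV, h⟩ := exs hC (update (update z i z1) j z2) (Equiv.refl ι)
    refine ⟨c i, c j, c, hc, V, hV, rfl, rfl, ?_, ?_, fun r r1 r2 => ?_⟩
    · rw [nz_iff, h]; simp [hij]
    · rw [nz_iff, h]; simp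
    · rw [h]; simp [r1, r2]
  · rintro _ _ _ _ t1 t2 t3 t4 _ _ _ _ t1' t2' t3' t4'
      ⟨c, hc, V, hV, rfl, rfl, rfl, rfl, a1, a2, a3, a4, h⟩
      ⟨c', hc', V', hV', rfl, rfl, rfl, rfl, b1, b2, b3, b4, h'⟩ h1 h2
    have hs : ∀ f : ι → ℕ, ∑ r ∈ ({i1, i2, i3, i4} : Finset ι), f r =
        f i1 + f i2 + f i3 + f i4 := by
      intro f
      rw [sum_insert (by simp [h12, h13, h14]), sum_insert (by simp [h23, h24]), sum_pair h34]
      ring
    have := key hC z {i1, i2, i3, i4} hc hc' hV hV'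
      (fun r hr => by
        simp only [mem_insert, mem_singleton, not_or] at hr
        exact h r hr.1 hr.2.1 hr.2.2.1 hr.2.2.2)
      (fun r hr => by
        simp only [mem_insert, mem_singleton, not_or] at hr
        exact h' r hr.1 hr.2.1 hr.2.2.1 hr.2.2.2)
      (by rw [hs, hs, dec a1, dec a2, dec a3, dec a4, dec b1, dec b2, dec b3, dec b4]; exact h1)
      (by rw [hs, hs, dec a1, dec a2, dec a3, dec a4, dec b1, dec b2, dec b3, dec b4]; exact h2)
    subst this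
    exact ⟨rfl, rfl, rfl, rfl⟩
  · intro z1 z2 z3 z4
    obtain ⟨c, z', rfl, rfl, rfl, rfl, h⟩ :=
      ex4 hC z h12 h13 h14 h23 h24 h34 z1 z2 z3 z4 1 fun _ _ _ _ _ => rfl
    exact ⟨_, _, _, _, h⟩
  · intro z1 z2 z3 z4
    obtain ⟨c, z', rfl, rfl, rfl, rfl, h⟩ :=
      ex4 hC z h12 h13 h14 h23 h24 h34 z1 z2 z3 z4 (swap i1 i2) fun _ a b _ _ =>
        swap_apply_of_ne_of_ne a b
    rw [symm_swap, swap_apply_left, swap_apply_right, swap_apply_of_ne_of_ne h13.symm h23.symm,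
      swap_apply_of_ne_of_ne h14.symm h24.symm] at h
    exact ⟨_, _, _, _, h⟩
  · intro z1 z2 z3 z4
    obtain ⟨c, z', rfl, rfl, rfl, rfl, h⟩ :=
      ex4 hC z h12 h13 h14 h23 h24 h34 z1 z2 z3 z4 (swap i1 i4) fun _ a _ _ b =>
        swap_apply_of_ne_of_ne a b
    rw [symm_swap, swap_apply_left, swap_apply_right, swap_apply_of_ne_of_ne h12.symm h24,
      swap_apply_of_ne_of_ne h13.symm h34] at h
    exact ⟨_, _, _, _, h⟩
  · intro z1 z2 z3 z4
    obtain ⟨c, z', rfl, rfl, rfl, rfl, h⟩ :=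
      ex4 hC z h12 h13 h14 h23 h24 h34 z1 z2 z3 z4 (swap i3 i4) fun _ _ _ a b =>
        swap_apply_of_ne_of_ne a b
    rw [symm_swap, swap_apply_left, swap_apply_right, swap_apply_of_ne_of_ne h13 h14,
      swap_apply_of_ne_of_ne h23 h24] at h
    exact ⟨_, _, _, _, h⟩

end Pool.Agent.MP_92191b_al.K6
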