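import Mathlib

/-! Definitions and intermediate statements for the case of an alphabet with at least five
letters. -/

set_option linter.unusedSectionVars false

namespace Pool.Agent.MP_92191b_al.K6

open Finset Function Equiv

variable {ι α : Type} [Fintype ι] [DecidableEq ι] [Fintype α] [DecidableEq α]

/-! ### One coordinate -/

/-- Indicator of inequality. -/
def nq {β : Type} [DecidableEq β] (a b : β) : ℕ := if a = b then 0 else 1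

/-- A set of cells no two of which are covered by one permutation. -/
def Conf (L : α → α → Prop) : Prop :=
  ∀ a b a' b', L a b → L a' b' → (a = a' ↔ b = b') → a = a' ∧ b = b'

/-- The function `e` equals `w` except at `b`. -/
def Single (e : α → α) (b w : α) : Prop := (∀ b', b' ≠ b → e b' = w) ∧ e b ≠ w

variable (α) in
def StmtLine0 : Prop :=
  ∀ L : α → α → Prop, Conf L → (∀ σ : Perm α, ∃ b, L (σ b) b) →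
    (∃ a0, ∀ a b, L a b ↔ a = a0) ∨ ∃ b0, ∀ a b, L a b ↔ b = b0

variable (α) in
def StmtRep : Prop :=
  3 ≤ Fintype.card α → ∀ (L : α → α → Prop) (A : α → Prop) (w : α), Conf L →
    (∀ σ : Perm α, (∃ b, L (σ b) b) ↔ A (σ w)) →
    (∀ a b, L a b ↔ A a ∧ b = w) ∨
    (∃ a0, (∀ a, A a ↔ a ≠ a0) ∧ ∀ a b, L a b ↔ a = a0 ∧ b ≠ w) ∨
    ((∀ a, A a) ∧ ((∃ a0, ∀ a b, L a b ↔ a = a0) ∨ ∃ b0, ∀ a b, L a b ↔ b = b0))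

/-! ### Two coordinates -/

abbrev R4 (α : Type) : Type := α → α → α → α → Prop

structure Plane (P : R4 α) : Prop where
  sep : ∀ c1 c2 d1 d2 c1' c2' d1' d2', P c1 c2 d1 d2 → P c1' c2' d1' d2' →
    nq c1 c1' + nq c2 c2' = nq d1 d1' + nq d2 d2' → c1 = c1' ∧ c2 = c2' ∧ d1 = d1' ∧ d2 = d2'
  ex : ∀ σ1 σ2 : Perm α, ∃ d1 d2, P (σ1 d1) (σ2 d2) d1 d2

def dual (P : R4 α) : R4 α := fun c1 c2 d1 d2 => P d1 d2 c1 c2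

def flp (P : R4 α) : R4 α := fun c1 c2 d1 d2 => P c2 c1 d2 d1

def Is1 (P : R4 α) (x1 x2 : α) : Prop := ∀ c1 c2 d1 d2, P c1 c2 d1 d2 ↔ c1 = x1 ∧ c2 = x2

def Is2 (P : R4 α) (y1 y2 : α) : Prop := ∀ c1 c2 d1 d2, P c1 c2 d1 d2 ↔ d1 = y1 ∧ d2 = y2

def Is3 (P : R4 α) (x1 x2 y1 y2 : α) : Prop := ∀ c1 c2 d1 d2, P c1 c2 d1 d2 ↔
  (c1 = x1 ∧ c2 = x2 ∧ (d1 = y1 ∨ d2 = y2)) ∨ (c1 ≠ x1 ∧ c2 ≠ x2 ∧ d1 = y1 ∧ d2 = y2)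

def Is4 (P : R4 α) (x1 x2 y1 y2 : α) : Prop := ∀ c1 c2 d1 d2, P c1 c2 d1 d2 ↔
  (c1 = x1 ∧ c2 = x2 ∧ d1 ≠ y1 ∧ d2 ≠ y2) ∨ ((c1 = x1 ∨ c2 = x2) ∧ d1 = y1 ∧ d2 = y2)

def Is5a (P : R4 α) (τ : Perm α) (y : α) : Prop :=
  ∀ c1 c2 d1 d2, P c1 c2 d1 d2 ↔ c1 = τ c2 ∧ d1 = y

def Is5b (P : R4 α) (τ : Perm α) (y : α) : Prop :=
  ∀ c1 c2 d1 d2, P c1 c2 d1 d2 ↔ c1 = τ c2 ∧ d2 = y

def Is6a (P : R4 α) (τ : Perm α) (x : α) : Prop :=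
  ∀ c1 c2 d1 d2, P c1 c2 d1 d2 ↔ d1 = τ d2 ∧ c1 = x

def Is6b (P : R4 α) (τ : Perm α) (x : α) : Prop :=
  ∀ c1 c2 d1 d2, P c1 c2 d1 d2 ↔ d1 = τ d2 ∧ c2 = x

def Is8 (P : R4 α) (a0 a1 x0 x1 y1 y2 : α) : Prop :=
  a0 ≠ a1 ∧ x0 ≠ x1 ∧ ∀ c1 c2 d1 d2, P c1 c2 d1 d2 ↔
    (((c1 = a0 ∧ c2 = x0) ∨ (c1 = a1 ∧ c2 = x1)) ∧ d1 = y1 ∧ d2 ≠ y2) ∨
    (((c1 = a0 ∧ c2 = x1) ∨ (c1 = a1 ∧ c2 = x0)) ∧ d1 ≠ y1 ∧ d2 = y2) ∨
    (c1 ≠ a0 ∧ c1 ≠ a1 ∧ c2 ≠ x0 ∧ c2 ≠ x1 ∧ d1 = y1 ∧ d2 = y2)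

/-- A column pivot. -/
def Piv (P : R4 α) (w : α) (lab : α → α ⊕ α) : Prop :=
  ∀ (x y : α) (σ : Perm α), (∃ b, P (σ b) x b y) ↔ lab (σ w) = .inl x ∨ lab (σ w) = .inr y

variable (α) in
def StmtPiv : Prop :=
  4 ≤ Fintype.card α → ∀ P : R4 α, Plane P → ∃ w lab, Piv P w lab ∨ Piv (dual P) w lab

variable (α) in
def StmtEnumA : Prop :=
  4 ≤ Fintype.card α → ∀ (P : R4 α) (w : α) (lab : α → α ⊕ α), Plane P → Piv P w lab →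
    (∃ x a a', a ≠ a' ∧ lab a = .inl x ∧ lab a' = .inl x) →
    (∃ x1 x2, Is1 P x1 x2) ∨ (∃ x1 x2 y1 y2, Is4 P x1 x2 y1 y2) ∨ ∃ τ x, Is6b P τ x

variable (α) in
def StmtEnumB : Prop :=
  4 ≤ Fintype.card α → ∀ (P : R4 α) (w : α) (lab : α → α ⊕ α), Plane P → Piv P w lab →
    (∀ x a a', lab a = .inl x → lab a' = .inl x → a = a') →
    (∃ y1 y2, Is2 P y1 y2) ∨ (∃ x1 x2 y1 y2, Is3 P x1 x2 y1 y2) ∨ (∃ τ y, Is5a P τ y) ∨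
    (∃ τ y, Is5b P τ y) ∨ ∃ a0 a1 x0 x1 y1 y2, Is8 P a0 a1 x0 x1 y1 y2

variable (α) in
def StmtCls : Prop :=
  4 ≤ Fintype.card α → ∀ P : R4 α, Plane P →
    (∃ x1 x2, Is1 P x1 x2) ∨ (∃ y1 y2, Is2 P y1 y2) ∨ (∃ x1 x2 y1 y2, Is3 P x1 x2 y1 y2) ∨
    (∃ x1 x2 y1 y2, Is4 P x1 x2 y1 y2) ∨ (∃ τ y, Is5a P τ y) ∨ (∃ τ y, Is5b P τ y) ∨
    (∃ τ x, Is6a P τ x) ∨ (∃ τ x, Is6b P τ x) ∨
    (∃ a0 a1 x0 x1 y1 y2, Is8 (dual P) a0 a1 x0 x1 y1 y2) ∨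
    ∃ a0 a1 x0 x1 y1 y2, Is8 P a0 a1 x0 x1 y1 y2

variable (α) in
def StmtRL : Prop :=
  4 ≤ Fintype.card α → ∀ (P : R4 α) (σ : Perm α) (x : α) (e : α → α), Plane P →
    (∀ y, P (σ (e y)) x (e y) y) →
    (∃ w, ∀ y, e y = w) ∨
    (∃ y0 w, Single e y0 w ∧
      (Is4 P (σ w) x (e y0) y0 ∨ ∃ x1, Is8 P (σ w) (σ (e y0)) x x1 w y0)) ∨
    (∃ y0 y1 w, y0 ≠ y1 ∧ (∀ y, y ≠ y0 → y ≠ y1 → e y = w) ∧ e y0 ≠ w ∧ e y1 ≠ w ∧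
      Is8 (dual P) (e y0) (e y1) y1 y0 (σ w) x) ∨
    ∃ τ : Perm α, (∀ y, e y = τ y) ∧ Is6b P τ x

variable (α) in
def StmtBlock : Prop :=
  4 ≤ Fintype.card α → ∀ (P : R4 α) (x1 x2 y1 y2 : α), Plane P →
    (∀ b1 b2, b1 ≠ y1 → b2 ≠ y2 → P x1 x2 b1 b2) → Is1 P x1 x2 ∨ Is4 P x1 x2 y1 y2

/-! ### Three coordinates -/

abbrev R6 (α : Type) : Type := α → α → α → α → α → α → Prop

def c12 (Q : R6 α) : R6 α := fun c1 c2 c3 d1 d2 d3 => Q c2 c1 c3 d1 d2 d3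
def c23 (Q : R6 α) : R6 α := fun c1 c2 c3 d1 d2 d3 => Q c1 c3 c2 d1 d2 d3
def d12 (Q : R6 α) : R6 α := fun c1 c2 c3 d1 d2 d3 => Q c1 c2 c3 d2 d1 d3
def d23 (Q : R6 α) : R6 α := fun c1 c2 c3 d1 d2 d3 => Q c1 c2 c3 d1 d3 d2
def s12 (Q : R6 α) : R6 α := fun c1 c2 c3 d1 d2 d3 => Q c2 c1 c3 d2 d1 d3
def s23 (Q : R6 α) : R6 α := fun c1 c2 c3 d1 d2 d3 => Q c1 c3 c2 d1 d3 d2
def s13 (Q : R6 α) : R6 α := fun c1 c2 c3 d1 d2 d3 => Q c3 c2 c1 d3 d2 d1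
def dual3 (Q : R6 α) : R6 α := fun c1 c2 c3 d1 d2 d3 => Q d1 d2 d3 c1 c2 c3

inductive Orb (Q : R6 α) : R6 α → Prop
  | refl : Orb Q Q
  | c12 {Q' : R6 α} : Orb Q Q' → Orb Q (c12 Q')
  | c23 {Q' : R6 α} : Orb Q Q' → Orb Q (c23 Q')
  | d12 {Q' : R6 α} : Orb Q Q' → Orb Q (d12 Q')
  | d23 {Q' : R6 α} : Orb Q Q' → Orb Q (d23 Q')

def p12 (Q : R6 α) (σ : Perm α) : R4 α := fun c1 c2 d1 d2 => ∃ d3, Q c1 c2 (σ d3) d1 d2 d3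
def p13 (Q : R6 α) (σ : Perm α) : R4 α := fun c1 c3 d1 d3 => ∃ d2, Q c1 (σ d2) c3 d1 d2 d3
def p23 (Q : R6 α) (σ : Perm α) : R4 α := fun c2 c3 d2 d3 => ∃ d1, Q (σ d1) c2 c3 d1 d2 d3
def p31 (Q : R6 α) (σ : Perm α) : R4 α := fun c3 c1 d3 d1 => ∃ d2, Q c1 (σ d2) c3 d1 d2 d3
def p32 (Q : R6 α) (σ : Perm α) : R4 α := fun c3 c2 d3 d2 => ∃ d1, Q (σ d1) c2 c3 d1 d2 d3

def Sep3 (Q : R6 α) : Prop :=
  ∀ c1 c2 c3 d1 d2 d3 c1' c2' c3' d1' d2' d3', Q c1 c2 c3 d1 d2 d3 → Q c1' c2' c3' d1' d2' d3' →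
    nq c1 c1' + nq c2 c2' + nq c3 c3' = nq d1 d1' + nq d2 d2' + nq d3 d3' →
    c1 = c1' ∧ c2 = c2' ∧ c3 = c3' ∧ d1 = d1' ∧ d2 = d2' ∧ d3 = d3'

def Ex3 (Q : R6 α) : Prop :=
  ∀ σ1 σ2 σ3 : Perm α, ∃ d1 d2 d3, Q (σ1 d1) (σ2 d2) (σ3 d3) d1 d2 d3

structure Sec (Q : R6 α) : Prop where
  sep : Sep3 Q
  ex : ∀ Q', Orb Q Q' → Ex3 Q'

structure Nice (Q : R6 α) : Prop where
  sec : Sec Q
  no7 : ∀ Q', Orb Q Q' → ∀ σ a0 a1 x0 x1 y1 y2, ¬Is8 (dual (p12 Q' σ)) a0 a1 x0 x1 y1 y2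
  mono : ∀ Q', Orb Q Q' → ∀ σ a0 a1 x0 x1 y1 y2, Is8 (p12 Q' σ) a0 a1 x0 x1 y1 y2 →
    ∀ b b' w w', Q' a0 x0 (σ w) y1 b w → Q' a0 x0 (σ w') y1 b' w' → w = w'

variable (α) in
def StmtM8b : Prop :=
  6 ≤ Fintype.card α → ∀ (Q : R6 α) (σ : Perm α) (a0 a1 x0 x1 y1 y2 v z t b0 b' : α), Sec Q →
    Is8 (p12 Q σ) a0 a1 x0 x1 y1 y2 → b0 ≠ y2 → z ≠ v → t ≠ v → t ≠ z → b' ≠ y1 →
    (∀ b, b ≠ y2 → b ≠ b0 → Q a0 x0 (σ v) y1 b v) → Q a0 x0 (σ z) y1 b0 z →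
    Q a1 x0 (σ t) b' y2 t → False

variable (α) in
def StmtM8 : Prop :=
  5 ≤ Fintype.card α → ∀ (Q : R6 α) (σ : Perm α) (a0 a1 x0 x1 y1 y2 : α), Sec Q →
    Is8 (p12 Q σ) a0 a1 x0 x1 y1 y2 → ∀ b b' w w',
    Q a0 x0 (σ w) y1 b w → Q a0 x0 (σ w') y1 b' w' → w = w'

variable (α) in
def StmtF : Prop :=
  4 ≤ Fintype.card α → ∀ (Q : R6 α) (σ : Perm α) (x1 x2 y1 y2 : α), Nice Q →
    Is4 (p12 Q σ) x1 x2 y1 y2 →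
    (∃ μ, ∀ b1 b2 w, b1 ≠ y1 → b2 ≠ y2 → Q x1 x2 (σ w) b1 b2 w → w = μ) ∨
    ∃ m, (∀ a1 a2 w, a1 ≠ x1 ∨ a2 ≠ x2 → Q a1 a2 (σ w) y1 y2 w → w = m) ∧
      ((∀ b1 b2 w b1' b2' w', b1 ≠ y1 → b2 ≠ y2 → b1' ≠ y1 → b2' ≠ y2 →
          Q x1 x2 (σ w) b1 b2 w → Q x1 x2 (σ w') b1' b2' w' → b1 = b1' ∨ b2 = b2' →
          w ≠ m → w' ≠ m → b1 = b1' ∧ b2 = b2') ∨
        (∀ b1 b2 w b1' b2' w', b1 ≠ y1 → b2 ≠ y2 → b1' ≠ y1 → b2' ≠ y2 →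
          Q x1 x2 (σ w) b1 b2 w → Q x1 x2 (σ w') b1' b2' w' → b1 = b1' ∨ b2 = b2' →
          w = w' → b1 = b1' ∧ b2 = b2'))

variable (α) in
def StmtLam : Prop :=
  4 ≤ Fintype.card α → ∀ (Q : R6 α) (σ : Perm α) (x1 x2 y1 y2 μ : α), Nice Q →
    Is4 (p12 Q σ) x1 x2 y1 y2 →
    (∀ b1 b2, b1 ≠ y1 → b2 ≠ y2 → Q x1 x2 (σ μ) b1 b2 μ) →
    (∃ b2, b2 ≠ y2 ∧ ∀ (ρ : Perm α) p a, ρ b2 = x2 → ¬Is8 (p31 Q ρ) (σ μ) (σ p) x1 a μ y1) →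
    (∃ b1, b1 ≠ y1 ∧ ∀ (ρ : Perm α) p a, ρ b1 = x1 → ¬Is8 (p32 Q ρ) (σ μ) (σ p) x2 a μ y2) →
    (∀ a1 a2 w, a1 ≠ x1 ∨ a2 ≠ x2 → Q a1 a2 (σ w) y1 y2 w → w = μ) ∨
    ∃ p, p ≠ μ ∧ (∀ a1 a2 w, a1 ≠ x1 ∨ a2 ≠ x2 → Q a1 a2 (σ w) y1 y2 w → w = p ∨ w = μ) ∧
      ∀ a1 a2 a1' a2', a1 ≠ x1 ∨ a2 ≠ x2 → a1' ≠ x1 ∨ a2' ≠ x2 →
        Q a1 a2 (σ μ) y1 y2 μ → Q a1' a2' (σ μ) y1 y2 μ → a1 = a1' ∧ a2 = a2'

/-! ### All coordinates -/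

abbrev Rel2 (ι α : Type) : Type := (ι → α) → (ι → α) → Prop

structure Tight (T : Rel2 ι α) : Prop where
  sep : ∀ c d c' d', T c d → T c' d' → hammingDist c c' = hammingDist d d' → c = c' ∧ d = d'
  ex : ∀ (σ : ι → Perm α) (π : Perm ι), ∃ c d, T c d ∧ ∀ l, c l = σ l (d (π l))

structure Good (T : Rel2 ι α) : Prop where
  tight : Tight T
  no1 : ∀ c c' d, T c d → T c' d → hammingDist c c' ≠ 1
  prod : ∀ c d c' d', T c d → T c' d' → T c d'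

def Cell (T : Rel2 ι α) (σ : ι → Perm α) (i j : ι) (c d : ι → α) : Prop :=
  T c d ∧ ∀ r, r ≠ i → r ≠ j → c r = σ r (d r)

def pl (T : Rel2 ι α) (σ : ι → Perm α) (i j : ι) : R4 α := fun c1 c2 d1 d2 =>
  ∃ c d, Cell T σ i j c d ∧ c i = c1 ∧ c j = c2 ∧ d i = d1 ∧ d j = d2

def sec (T : Rel2 ι α) (σ : ι → Perm α) (i j l : ι) : R6 α := fun c1 c2 c3 d1 d2 d3 =>
  ∃ c d, T c d ∧ (∀ r, r ≠ i → r ≠ j → r ≠ l → c r = σ r (d r)) ∧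
    c i = c1 ∧ c j = c2 ∧ c l = c3 ∧ d i = d1 ∧ d j = d2 ∧ d l = d3

def Far (T : Rel2 ι α) (σ : ι → Perm α) (i j : ι) (y1 y2 : α) (c d : ι → α) : Prop :=
  Cell T σ i j c d ∧ d i ≠ y1 ∧ d j ≠ y2

def Arm (T : Rel2 ι α) (σ : ι → Perm α) (i j : ι) (x1 x2 y1 y2 : α) (c d : ι → α) : Prop :=
  Cell T σ i j c d ∧ d i = y1 ∧ d j = y2 ∧ (c i ≠ x1 ∨ c j ≠ x2)

def RLine (T : Rel2 ι α) (σ : ι → Perm α) (j : ι) (x : α) (c d : α → ι → α) : Prop :=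
  ∀ b, T (c b) (d b) ∧ c b j = x ∧ d b j = b ∧ ∀ r, r ≠ j → c b r = σ r (d b r)

def KLine (T : Rel2 ι α) (σ : ι → Perm α) (j : ι) (y : α) (c d : α → ι → α) : Prop :=
  ∀ a, T (c a) (d a) ∧ c a j = a ∧ d a j = y ∧ ∀ r, r ≠ j → c a r = σ r (d a r)

variable (ι α) in
/-- Sections of a tight relation. -/
def StmtSec : Prop :=
  ∀ T : Rel2 ι α, Tight T → ∀ (σ : ι → Perm α) (i j : ι), i ≠ j →
    Plane (pl T σ i j) ∧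
    (∀ c d c' d', Cell T σ i j c d → Cell T σ i j c' d' →
      nq (c i) (c' i) + nq (c j) (c' j) = nq (d i) (d' i) + nq (d j) (d' j) → c = c' ∧ d = d') ∧
    ∀ l, l ≠ i → l ≠ j → Sec (sec T σ i j l) ∧ p12 (sec T σ i j l) (σ l) = pl T σ i j ∧
      (∀ ρ, p31 (sec T σ i j l) ρ = pl T (update σ j ρ) l i) ∧
      ∀ ρ, p32 (sec T σ i j l) ρ = pl T (update σ i ρ) l j

variable (ι α) in
def StmtM1 : Prop :=
  4 ≤ Fintype.card α → ∀ T : Rel2 ι α, Tight T → (∀ c d c' d', T c d → T c' d' → T c d') →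
    ∀ (σ : ι → Perm α) (i j : ι), i ≠ j →
    ∀ a0 a1 x0 x1 y1 y2, Is8 (pl T σ i j) a0 a1 x0 x1 y1 y2 → ∀ c d c' d',
      Cell T σ i j c d → Cell T σ i j c' d' → c i = a0 → c j = x0 → c' i = a0 → c' j = x0 →
      ∀ r, r ≠ i → r ≠ j → d r = d' r

variable (ι α) in
def StmtNice : Prop :=
  4 ≤ Fintype.card α → ∀ T : Rel2 ι α, Good T → ∀ (σ : ι → Perm α) (i j l : ι),
    i ≠ j → l ≠ i → l ≠ j → Nice (sec T σ i j l)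

variable (ι α) in
def StmtNo7 : Prop :=
  4 ≤ Fintype.card α → ∀ T : Rel2 ι α, Good T → ∀ (σ : ι → Perm α) (i j : ι), i ≠ j →
    ∀ a0 a1 x0 x1 y1 y2, ¬Is8 (dual (pl T σ i j)) a0 a1 x0 x1 y1 y2

variable (ι α) in
def StmtGRL : Prop :=
  4 ≤ Fintype.card α → ∀ T : Rel2 ι α, Good T → ∀ (σ : ι → Perm α) (i j : ι) (x : α)
    (c d : α → ι → α), i ≠ j → RLine T σ j x c d →
    (∃ w, ∀ b, d b i = w) ∨
    (∃ b0 w, Single (fun b => d b i) b0 w ∧ (Is4 (pl T σ i j) (σ i w) x (d b0 i) b0 ∨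
      ∃ x1, Is8 (pl T σ i j) (σ i w) (σ i (d b0 i)) x x1 w b0)) ∨
    ∃ τ : Perm α, (∀ b, d b i = τ b) ∧ Is6b (pl T σ i j) τ x

variable (ι α) in
def StmtGF : Prop :=
  4 ≤ Fintype.card α → ∀ T : Rel2 ι α, Good T → ∀ (σ : ι → Perm α) (i j r : ι)
    (x1 x2 y1 y2 : α), i ≠ j → r ≠ i → r ≠ j → Is4 (pl T σ i j) x1 x2 y1 y2 →
    (∃ μ, ∀ c d, Far T σ i j y1 y2 c d → d r = μ) ∨
    ∃ m, (∀ c d, Arm T σ i j x1 x2 y1 y2 c d → d r = m) ∧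
      ((∀ c d c' d', Far T σ i j y1 y2 c d → Far T σ i j y1 y2 c' d' →
          d i = d' i ∨ d j = d' j → d r ≠ m → d' r ≠ m → d = d') ∨
        ∀ c d c' d', Far T σ i j y1 y2 c d → Far T σ i j y1 y2 c' d' →
          d i = d' i ∨ d j = d' j → d r = d' r → d = d')

variable (ι α) in
def StmtGLam : Prop :=
  4 ≤ Fintype.card α → ∀ T : Rel2 ι α, Good T → ∀ (σ : ι → Perm α) (i j r : ι)
    (x1 x2 y1 y2 : α), i ≠ j → r ≠ i → r ≠ j → Is4 (pl T σ i j) x1 x2 y1 y2 →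
    (∃ r0 c d c' d', r0 ≠ i ∧ r0 ≠ j ∧ Far T σ i j y1 y2 c d ∧ Far T σ i j y1 y2 c' d' ∧
      d r0 ≠ d' r0) →
    (∃ m, ∀ c d, Arm T σ i j x1 x2 y1 y2 c d → d r = m) ∨
    ∃ p μ, p ≠ μ ∧ (∀ c d, Far T σ i j y1 y2 c d → d r = μ) ∧
      (∀ c d, Arm T σ i j x1 x2 y1 y2 c d → d r = p ∨ d r = μ) ∧
      ∀ c d c' d', Arm T σ i j x1 x2 y1 y2 c d → Arm T σ i j x1 x2 y1 y2 c' d' →
        d r = μ → d' r = μ → c = c'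

variable (ι α) in
def StmtAlpha : Prop :=
  4 ≤ Fintype.card α → ∀ T : Rel2 ι α, Good T → ∀ (σ : ι → Perm α) (i j l : ι)
    (x b1 b2 wi wl : α) (c d : α → ι → α), i ≠ j → l ≠ j → i ≠ l → b1 ≠ b2 →
    RLine T σ j x c d → Single (fun b => d b i) b1 wi → Single (fun b => d b l) b2 wl →
    Is4 (pl T σ j i) x (σ i wi) b1 (d b1 i) ∧
    ∀ τ : Perm α, τ b1 = x →
      Is4 (pl T (update σ j τ) i l) (σ i wi) (σ l wl) (d b1 i) wl ∧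
      (∀ c' d', Arm T (update σ j τ) i l (σ i wi) (σ l wl) (d b1 i) wl c' d' → d' j = b1) ∧
      (∃ c' d', Cell T (update σ j τ) i l c' d' ∧ d' i = wi ∧ d' l = d b2 l ∧ d' j = b2) ∧
      ∀ c' d', Far T (update σ j τ) i l (d b1 i) wl c' d' → d' i = wi ∨ d' l = d b2 l →
        d' j = b1 ∨ (d' i = wi ∧ d' l = d b2 l)

/-- The coordinate `r` separates two cells of the arm on which `c i` is constant. -/
def SepAt (T : Rel2 ι α) (σ : ι → Perm α) (i l : ι) (x1 x2 y1 y2 : α) (r : ι) : Prop :=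
  ∃ c d c' d', Arm T σ i l x1 x2 y1 y2 c d ∧ Arm T σ i l x1 x2 y1 y2 c' d' ∧
    c i = x1 ∧ c' i = x1 ∧ d r ≠ d' r

variable (ι α) in
def StmtDS1 : Prop :=
  4 ≤ Fintype.card α → ∀ T : Rel2 ι α, Good T → ∀ (σ : ι → Perm α) (i j l : ι)
    (x b1 b2 wi wl : α) (c d : α → ι → α) (τ : Perm α), i ≠ j → l ≠ j → i ≠ l → b1 ≠ b2 →
    RLine T σ j x c d → Single (fun b => d b i) b1 wi → Single (fun b => d b l) b2 wl →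
    τ b1 = x →
    (∃ r, r ≠ i ∧ r ≠ l ∧ SepAt T (update σ j τ) i l (σ i wi) (σ l wl) (d b1 i) wl r) ∧
    ∀ r, r ≠ i → r ≠ l → SepAt T (update σ j τ) i l (σ i wi) (σ l wl) (d b1 i) wl r →
      r ≠ j ∧ ∃ μ, Single (fun b => d b r) b1 μ ∧
        (∀ c' d', Arm T (update σ j τ) i l (σ i wi) (σ l wl) (d b1 i) wl c' d' →
          d' r = d b1 r ∨ d' r = μ) ∧
        ∀ c' d' c'' d'', Arm T (update σ j τ) i l (σ i wi) (σ l wl) (d b1 i) wl c' d' →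
          Arm T (update σ j τ) i l (σ i wi) (σ l wl) (d b1 i) wl c'' d'' →
          d' r = μ → d'' r = μ → c' = c''

variable (ι α) in
def StmtDS2 : Prop :=
  4 ≤ Fintype.card α → ∀ T : Rel2 ι α, Good T → ∀ (σ : ι → Perm α) (i j l l2 r : ι)
    (x b1 b2 wi wl wl2 : α) (c d : α → ι → α) (τ : Perm α), i ≠ j → l ≠ j → l2 ≠ j → i ≠ l →
    i ≠ l2 → l ≠ l2 → b1 ≠ b2 → RLine T σ j x c d → Single (fun b => d b i) b1 wi →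
    Single (fun b => d b l) b2 wl → Single (fun b => d b l2) b2 wl2 → τ b1 = x →
    r ≠ i → r ≠ l → r ≠ l2 → SepAt T (update σ j τ) i l (σ i wi) (σ l wl) (d b1 i) wl r →
    SepAt T (update σ j τ) i l2 (σ i wi) (σ l2 wl2) (d b1 i) wl2 r → False

variable (ι α) in
def StmtDS : Prop :=
  4 ≤ Fintype.card α → ∀ T : Rel2 ι α, Good T → ∀ (σ : ι → Perm α) (i j l : ι)
    (x b1 b2 wi wl : α) (c d : α → ι → α), i ≠ j → l ≠ j →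
    RLine T σ j x c d → Single (fun b => d b i) b1 wi → Single (fun b => d b l) b2 wl → b1 = b2

variable (ι α) in
def StmtNo6 : Prop :=
  4 ≤ Fintype.card α → ∀ T : Rel2 ι α, Good T → ∀ (σ : ι → Perm α) (i j : ι) (τ : Perm α)
    (x : α), i ≠ j → ¬Is6b (pl T σ i j) τ x

variable (ι α) in
def StmtLine : Prop :=
  4 ≤ Fintype.card α → ∀ T : Rel2 ι α, Good T → ∀ (σ : ι → Perm α) (j : ι),
    (∃ y c d, KLine T σ j y c d) ∨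
    ∃ x c d b0, RLine T σ j x c d ∧
      (∀ b b', b ≠ b0 → b' ≠ b0 → ∀ r, r ≠ j → d b r = d b' r) ∧
      ((∀ b b' r, r ≠ j → d b r = d b' r) ∨ ∃ σ' c' d', KLine T σ' j b0 c' d')

/-! ### Pairs of codes -/

def Sep (C D : Finset (ι → α)) : Prop :=
  ∀ c ∈ C, ∀ c' ∈ C, ∀ d ∈ D, ∀ d' ∈ D, hammingDist c c' = hammingDist d d' → c = c'

structure GP (C D : Finset (ι → α)) : Prop where
  sep : Sep C D
  big : Fintype.card α ^ Fintype.card ι ≤ C.card * D.card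
  no1 : ∀ c ∈ C, ∀ c' ∈ C, hammingDist c c' ≠ 1

variable (ι α) in
def StmtCnt : Prop :=
  (∀ R : Finset ι, ∃ n, 0 < n ∧ ∀ c d : ι → α,
    (univ.filter fun σ : ι → Perm α => ∀ r ∈ R, c r = σ r (d r)).card = n) ∧
  (∀ C D : Finset (ι → α), Sep C D → C.card * D.card ≤ Fintype.card α ^ Fintype.card ι) ∧
  (∀ C D : Finset (ι → α), Nonempty α → Sep C D →
    Fintype.card α ^ Fintype.card ι ≤ C.card * D.card → Tight fun c d => c ∈ C ∧ d ∈ D) ∧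
  ∀ C D : Finset (ι → α), (∀ σ : ι → Perm α, ∃ d ∈ D, (fun l => σ l (d l)) ∈ C) →
    Fintype.card α ^ Fintype.card ι ≤ C.card * D.card

def Fib (D : Finset (ι → α)) (j : ι) (x : ι → α) : Set α := {v | update x j v ∈ D}

def SwRel (D D' : Finset (ι → α)) (j : ι) (z : α) : Prop :=
  ∀ x, (Fib D j x = ∅ → Fib D' j x = ∅) ∧ (Fib D j x = Set.univ → Fib D' j x = Set.univ) ∧
    (∀ b, Fib D j x = {b} → Fib D' j x = {z}) ∧ ∀ b, Fib D j x = {b}ᶜ → Fib D' j x = {z}ᶜ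

variable (ι α) in
def StmtLab : Prop :=
  4 ≤ Fintype.card α → ∀ C D : Finset (ι → α), GP C D → ∀ (σ : ι → Perm α) (j : ι),
    (∀ c ∈ C, ∀ d ∈ D, (∀ r, r ≠ j → c r = σ r (d r)) → Fib D j d = Set.univ) ∨
    ∃ b, ∀ c ∈ C, ∀ d ∈ D, (∀ r, r ≠ j → c r = σ r (d r)) → Fib D j d = {b} ∨ Fib D j d = {b}ᶜ

open Classical in
variable (ι α) in
def StmtSw2 : Prop :=
  4 ≤ Fintype.card α → ∀ C D : Finset (ι → α), GP C D → ∀ (j : ι) (z : α),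
    (∃ x b, b ≠ z ∧ (Fib D j x = {b} ∨ Fib D j x = {b}ᶜ)) →
    (univ.filter fun x : ι → α => x j = z ∧ ∃ b, b ≠ z ∧ Fib D j x = {b}ᶜ).card <
      (univ.filter fun x : ι → α => x j = z ∧ ∃ b, b ≠ z ∧ Fib D j x = {b}).card

variable (ι α) in
def StmtSw : Prop :=
  4 ≤ Fintype.card α → ∀ C D : Finset (ι → α), GP C D → ∀ (j : ι) (z : α),
    (∃ x b, b ≠ z ∧ (Fib D j x = {b} ∨ Fib D j x = {b}ᶜ)) →
    ∃ D', GP C D' ∧ SwRel D D' j z ∧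
      (∀ r v, r ≠ j → (D'.filter fun d => d r = v).card = (D.filter fun d => d r = v).card) ∧
      (D.filter fun d => d j = z).card < (D'.filter fun d => d j = z).card

def dev (ζ : ι → α) (E : Finset ι) (x : ι → α) : ℕ :=
  (univ.filter fun i => i ∉ E ∧ x i ≠ ζ i).card

/-- The product of a full cube on `E` and a ball of radius `e` around `ζ` off `E`. -/
def AK (ζ : ι → α) (E : Finset ι) (e : ℕ) : Finset (ι → α) := univ.filter fun x => dev ζ E x ≤ e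

/-- The conclusion of the structure theorem. -/
def Concl (C D : Finset (ι → α)) : Prop :=
  ∃ ζ E e, D = AK ζ E e ∧ E.card + Fintype.card α * e + 1 ≤ Fintype.card ι ∧
    ∃ c ∈ C, ∃ c' ∈ C, hammingDist c c' = 2 * e + E.card + 1

variable (ι α) in
def StmtToCen : Prop :=
  5 ≤ Fintype.card α → ∀ C D : Finset (ι → α), GP C D → 2 ≤ C.card → ∀ ζ : ι → α,
    (∀ d ∈ D, ∀ j v, d j ≠ ζ j → v ≠ ζ j → update d j v ∈ D) → Concl C D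

variable (ι α) in
def StmtA : Prop :=
  5 ≤ Fintype.card α → ∀ C D : Finset (ι → α), GP C D → 2 ≤ C.card → Concl C D

/-! ### The centred case -/

def df (c z : ι → α) : Finset ι := univ.filter fun l => c l ≠ z l

structure Cen (C : Finset (ι → α)) (F : Finset ι → Prop) : Prop where
  sep : ∀ c ∈ C, ∀ c' ∈ C, ∀ V V', F V → F V' → (symmDiff V V').card ≤ hammingDist c c' →
    hammingDist c c' ≤ (V ∪ V').card → c = c'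
  ex : ∀ (z : ι → α) (π : Perm ι), ∃ c ∈ C, F ((df c z).map π.toEmbedding)

def nz (c z : α) : Bool := decide (c ≠ z)

def bo (t t' : Bool) : ℕ := if t = true ∨ t' = true then 1 else 0

abbrev W2 (α : Type) : Type := α → α → Bool → Bool → Prop
abbrev W3 (α : Type) : Type := α → α → α → Bool → Bool → Bool → Prop
abbrev W4 (α : Type) : Type := α → α → α → α → Bool → Bool → Bool → Bool → Prop

structure CPlane (W : W2 α) : Prop where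
  sep : ∀ c1 c2 t1 t2 c1' c2' t1' t2', W c1 c2 t1 t2 → W c1' c2' t1' t2' →
    nq t1 t1' + nq t2 t2' ≤ nq c1 c1' + nq c2 c2' →
    nq c1 c1' + nq c2 c2' ≤ bo t1 t1' + bo t2 t2' → c1 = c1' ∧ c2 = c2'
  ex : ∀ z1 z2, ∃ c1 c2, W c1 c2 (nz c1 z1) (nz c2 z2)

def Q1 (W : W2 α) (x1 x2 : α) : Prop := ∀ c1 c2 t1 t2, W c1 c2 t1 t2 ↔ c1 = x1 ∧ c2 = x2

def Q2 (W : W2 α) : Prop := ∀ c1 c2 t1 t2, W c1 c2 t1 t2 ↔ t1 = false ∧ t2 = false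

def Q3 (W : W2 α) (x1 x2 : α) : Prop := ∀ c1 c2 t1 t2, W c1 c2 t1 t2 ↔
  (c1 = x1 ∧ c2 = x2 ∧ (t1 = false ∨ t2 = false)) ∨
    (c1 ≠ x1 ∧ c2 ≠ x2 ∧ t1 = false ∧ t2 = false)

def Q4 (W : W2 α) (x1 x2 : α) : Prop := ∀ c1 c2 t1 t2, W c1 c2 t1 t2 ↔
  (c1 = x1 ∧ c2 = x2 ∧ t1 = true ∧ t2 = true) ∨ ((c1 = x1 ∨ c2 = x2) ∧ t1 = false ∧ t2 = false)

def Q5a (W : W2 α) (τ : Perm α) : Prop := ∀ c1 c2 t1 t2, W c1 c2 t1 t2 ↔ c1 = τ c2 ∧ t1 = false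

def Q5b (W : W2 α) (τ : Perm α) : Prop := ∀ c1 c2 t1 t2, W c1 c2 t1 t2 ↔ c1 = τ c2 ∧ t2 = false

def Q8 (W : W2 α) (a0 a1 x0 x1 : α) : Prop :=
  a0 ≠ a1 ∧ x0 ≠ x1 ∧ ∀ c1 c2 t1 t2, W c1 c2 t1 t2 ↔
    (((c1 = a0 ∧ c2 = x0) ∨ (c1 = a1 ∧ c2 = x1)) ∧ t1 = false ∧ t2 = true) ∨
    (((c1 = a0 ∧ c2 = x1) ∨ (c1 = a1 ∧ c2 = x0)) ∧ t1 = true ∧ t2 = false) ∨
    (c1 ≠ a0 ∧ c1 ≠ a1 ∧ c2 ≠ x0 ∧ c2 ≠ x1 ∧ t1 = false ∧ t2 = false)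

variable (α) in
def StmtCP : Prop :=
  4 ≤ Fintype.card α → ∀ W : W2 α, CPlane W →
    (∃ x1 x2, Q1 W x1 x2) ∨ Q2 W ∨ (∃ x1 x2, Q3 W x1 x2) ∨ (∃ x1 x2, Q4 W x1 x2) ∨
    (∃ τ, Q5a W τ) ∨ (∃ τ, Q5b W τ) ∨ ∃ a0 a1 x0 x1, Q8 W a0 a1 x0 x1

variable (α) in
def StmtCK : Prop :=
  4 ≤ Fintype.card α → ∀ (W : W2 α) (z : α) (e : α → α), CPlane W →
    (∀ a, W (e a) a (nz (e a) z) false) →
    (∀ a, e a = z) ∨ (∃ a0, Single e a0 z ∧ Q3 W (e a0) a0) ∨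
    (∃ a0 a1, a0 ≠ a1 ∧ (∀ a, a ≠ a0 → a ≠ a1 → e a = z) ∧ e a0 ≠ z ∧ e a1 ≠ z ∧
      Q8 W (e a0) (e a1) a1 a0) ∨
    ∃ τ : Perm α, (∀ a, e a = τ a) ∧ Q5b W τ

structure CSec3 (W : W3 α) : Prop where
  sep : ∀ c1 c2 c3 t1 t2 t3 c1' c2' c3' t1' t2' t3', W c1 c2 c3 t1 t2 t3 →
    W c1' c2' c3' t1' t2' t3' →
    nq t1 t1' + nq t2 t2' + nq t3 t3' ≤ nq c1 c1' + nq c2 c2' + nq c3 c3' →
    nq c1 c1' + nq c2 c2' + nq c3 c3' ≤ bo t1 t1' + bo t2 t2' + bo t3 t3' →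
    c1 = c1' ∧ c2 = c2' ∧ c3 = c3'
  ex : ∀ z1 z2 z3, ∃ c1 c2 c3, W c1 c2 c3 (nz c1 z1) (nz c2 z2) (nz c3 z3)
  ex12 : ∀ z1 z2 z3, ∃ c1 c2 c3, W c1 c2 c3 (nz c2 z2) (nz c1 z1) (nz c3 z3)

structure CSec4 (W : W4 α) : Prop where
  sep : ∀ c1 c2 c3 c4 t1 t2 t3 t4 c1' c2' c3' c4' t1' t2' t3' t4', W c1 c2 c3 c4 t1 t2 t3 t4 →
    W c1' c2' c3' c4' t1' t2' t3' t4' →
    nq t1 t1' + nq t2 t2' + nq t3 t3' + nq t4 t4' ≤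
      nq c1 c1' + nq c2 c2' + nq c3 c3' + nq c4 c4' →
    nq c1 c1' + nq c2 c2' + nq c3 c3' + nq c4 c4' ≤
      bo t1 t1' + bo t2 t2' + bo t3 t3' + bo t4 t4' →
    c1 = c1' ∧ c2 = c2' ∧ c3 = c3' ∧ c4 = c4'
  ex : ∀ z1 z2 z3 z4, ∃ c1 c2 c3 c4, W c1 c2 c3 c4 (nz c1 z1) (nz c2 z2) (nz c3 z3) (nz c4 z4)
  ex12 : ∀ z1 z2 z3 z4, ∃ c1 c2 c3 c4, W c1 c2 c3 c4 (nz c2 z2) (nz c1 z1) (nz c3 z3) (nz c4 z4)
  ex14 : ∀ z1 z2 z3 z4, ∃ c1 c2 c3 c4, W c1 c2 c3 c4 (nz c4 z4) (nz c2 z2) (nz c3 z3) (nz c1 z1)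
  ex34 : ∀ z1 z2 z3 z4, ∃ c1 c2 c3 c4, W c1 c2 c3 c4 (nz c1 z1) (nz c2 z2) (nz c4 z4) (nz c3 z3)

variable (α) in
def StmtT1 : Prop :=
  6 ≤ Fintype.card α → ∀ (W : W3 α) (x1 z x3 a : α) (φ ψ : α → α), CSec3 W →
    W x1 z x3 true false true → (∀ b, W x1 (φ b) b false (nz (φ b) z) false) →
    (∀ b, W b (ψ b) x3 false (nz (ψ b) z) false) → a ≠ x3 → φ a ≠ z →
    Injective φ ∧ ∃ s, s ≠ x1 ∧ W s (φ a) a true false false ∧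
      ((W s z a false true false ∧ ψ s = φ a) ∨
        (W s z x3 false true true ∧ (∀ p, p ≠ x1 → ψ p = z) ∧
          ∃ χ, χ ≠ x1 ∧ W χ z x3 true true false))

variable (α) in
def StmtT23 : Prop :=
  6 ≤ Fintype.card α → ∀ (W : W4 α) (x1 z2 x3 z4 : α) (φ φ' ψ ψ' : α → α), CSec4 W →
    W x1 z2 x3 z4 true false true false →
    (∀ b, W x1 (φ b) b (φ' b) false (nz (φ b) z2) false (nz (φ' b) z4)) →
    (∀ b, W b (ψ b) x3 (ψ' b) false (nz (ψ b) z2) false (nz (ψ' b) z4)) →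
    (∃ a, a ≠ x3 ∧ φ a ≠ z2) → (∃ a, a ≠ x1 ∧ ψ' a ≠ z4) →
    ((∃ a, a ≠ x1 ∧ ψ a ≠ z2) ↔ ∃ a, a ≠ x3 ∧ φ' a ≠ z4) → False

/-- The centred plane section. -/
def cpl (C : Finset (ι → α)) (F : Finset ι → Prop) (z : ι → α) (i j : ι) : W2 α :=
  fun c1 c2 t1 t2 => ∃ c ∈ C, ∃ V, F V ∧ c i = c1 ∧ c j = c2 ∧ (i ∈ V ↔ t1 = true) ∧
    (j ∈ V ↔ t2 = true) ∧ ∀ r, r ≠ i → r ≠ j → (r ∈ V ↔ c r ≠ z r)

/-- The centred section in four coordinates. -/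
def csec4 (C : Finset (ι → α)) (F : Finset ι → Prop) (z : ι → α) (i1 i2 i3 i4 : ι) : W4 α :=
  fun c1 c2 c3 c4 t1 t2 t3 t4 => ∃ c ∈ C, ∃ V, F V ∧ c i1 = c1 ∧ c i2 = c2 ∧ c i3 = c3 ∧
    c i4 = c4 ∧ (i1 ∈ V ↔ t1 = true) ∧ (i2 ∈ V ↔ t2 = true) ∧ (i3 ∈ V ↔ t3 = true) ∧
    (i4 ∈ V ↔ t4 = true) ∧ ∀ r, r ≠ i1 → r ≠ i2 → r ≠ i3 → r ≠ i4 → (r ∈ V ↔ c r ≠ z r)

variable (ι α) in
def StmtCSec : Prop :=
  ∀ (C : Finset (ι → α)) (F : Finset ι → Prop), Cen C F → ∀ z : ι → α,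
    (∀ c ∈ C, ∀ c' ∈ C, F (df c z) → F (df c' z) → c = c') ∧
    (∀ i j, i ≠ j → CPlane (cpl C F z i j)) ∧
    ∀ i1 i2 i3 i4, i1 ≠ i2 → i1 ≠ i3 → i1 ≠ i4 → i2 ≠ i3 → i2 ≠ i4 → i3 ≠ i4 →
      CSec4 (csec4 C F z i1 i2 i3 i4)

variable (ι α) in
def StmtDown : Prop :=
  5 ≤ Fintype.card α → ∀ (C : Finset (ι → α)) (F : Finset ι → Prop), Cen C F →
    ∀ V l, F (insert l V) → F V

variable (α) in
def KLP (F : Finset ι → Prop) (J : ℕ) (V : Finset ι) (l : ι) : Prop :=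
  ∃ (P : Finset ι) (T : α → Finset ι) (a0 : α), P ⊆ V ∧ V.card + P.card = J ∧
    (∀ j ∈ P, F (insert l (V.erase j))) ∧
    (∀ a, a ≠ a0 → F (T a) ∧ l ∉ T a ∧ Disjoint (T a) P ∧ (T a \ V).card = P.card) ∧
    (∀ a a', a ≠ a0 → a' ≠ a0 → a ≠ a' → Disjoint (T a \ V) (T a' \ V)) ∧
    ∀ j ∈ V \ P, ∀ a a', a ≠ a0 → a' ≠ a0 → j ∉ T a → j ∉ T a' → a = a'

variable (ι α) in
def StmtKL : Prop :=
  4 ≤ Fintype.card α → ∀ (C : Finset (ι → α)) (F : Finset ι → Prop) (J : ℕ), Cen C F →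
    (∀ V V', V' ⊆ V → F V → F V') → (∀ V V', F V → F V' → (V ∪ V').card ≤ J) →
    (∃ V V', F V ∧ F V' ∧ (V ∪ V').card = J) →
    ∀ V l, F V → (∀ r, r ∉ V → ¬F (insert r V)) → l ∉ V →
      (∃ c ∈ C, ∃ c' ∈ C, hammingDist c c' = J + 1) ∧ KLP α F J V l

variable (ι α) in
def StmtFam : Prop :=
  4 ≤ Fintype.card α → ∀ (F : Finset ι → Prop) (J : ℕ), (∀ V V', V' ⊆ V → F V → F V') →
    (∀ V V', F V → F V' → (V ∪ V').card ≤ J) →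
    (∀ V l, F V → (∀ r, r ∉ V → ¬F (insert r V)) → l ∉ V → KLP α F J V l) →
    F ∅ → ¬F univ →
    ∃ (E : Finset ι) (e : ℕ), 2 * e + E.card = J ∧
      E.card + Fintype.card α * e + 1 ≤ Fintype.card ι ∧ ∀ V, F V ↔ (V \ E).card ≤ e

variable (ι α) in
def StmtCenA : Prop :=
  5 ≤ Fintype.card α → ∀ (C : Finset (ι → α)) (F : Finset ι → Prop), Cen C F →
    2 ≤ C.card → ∃ (E : Finset ι) (e : ℕ), E.card + Fintype.card α * e + 1 ≤ Fintype.card ι ∧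
      (∀ V, F V ↔ (V \ E).card ≤ e) ∧
      ∃ c ∈ C, ∃ c' ∈ C, hammingDist c c' = 2 * e + E.card + 1

/-! ### Endomorphisms -/

def Diam (F : Finset (ι → α)) (J : ℕ) : Prop := ∀ x ∈ F, ∀ y ∈ F, hammingDist x y ≤ J

variable (ι α) in
/-- The radius `e` gives largest sets of diameter `J`. -/
def Ty (J N e : ℕ) : Prop :=
  2 * e ≤ J ∧ J + Fintype.card α * e + 1 ≤ Fintype.card ι + 2 * e ∧
    ∀ (ζ : ι → α) (E : Finset ι), 2 * e + E.card = J → (AK ζ E e).card = N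

variable (ι α) in
structure MaxA (J N : ℕ) : Prop where
  le : ∀ F : Finset (ι → α), Diam F J → F.card ≤ N
  eq : ∀ F : Finset (ι → α), Diam F J → F.card = N →
    ∃ ζ E e, 2 * e + E.card = J ∧ Ty ι α J N e ∧ F = AK ζ E e

def Unif (f : (ι → α) → ι → α) : Prop :=
  ∀ a b, (univ.filter fun x => f x = f a).card = (univ.filter fun x => f x = f b).card

variable (ι α) in
def StmtSph : Prop :=
  ∀ (ζ : ι → α) (Z N R : Finset ι) (s : ℕ), Disjoint Z N → Disjoint Z R → Disjoint N R →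
    (univ.filter fun x : ι → α => (∀ i ∈ Z, x i = ζ i) ∧ (∀ i ∈ N, x i ≠ ζ i) ∧
      (R.filter fun i => x i ≠ ζ i).card = s).card =
    R.card.choose s * (Fintype.card α - 1) ^ (s + N.card) *
      Fintype.card α ^ (Fintype.card ι - Z.card - N.card - R.card)

variable (ι α) in
def StmtTy : Prop :=
  (∀ (ζ ζ' : ι → α) (E E' : Finset ι) (e : ℕ), E.card = E'.card →
    (AK ζ E e).card = (AK ζ' E' e).card) ∧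
  (∀ (ζ : ι → α) (E : Finset ι) (e : ℕ), Diam (AK ζ E e) (2 * e + E.card)) ∧
  (3 ≤ Fintype.card α → ∀ (ζ : ι → α) (E : Finset ι) (e s : ℕ),
    E.card + 2 * e ≤ Fintype.card ι → s ≤ 2 * e + E.card →
    ∃ x ∈ AK ζ E e, ∃ y ∈ AK ζ E e, hammingDist x y = s) ∧
  (3 ≤ Fintype.card α → ∀ J N e e' : ℕ, Nonempty (ι → α) → MaxA ι α J N → Ty ι α J N e →
    Ty ι α J N e' → e < e' →
    e' = e + 1 ∧ J + Fintype.card α * e' + 1 = Fintype.card ι + 2 * e')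

variable (ι α) in
def StmtSepB : Prop :=
  3 ≤ Fintype.card α → ∀ J e : ℕ, 1 ≤ e → 2 * e ≤ J →
    J + Fintype.card α * e + 1 ≤ Fintype.card ι + 2 * e → ∀ u v w : ι → α,
    hammingDist u v ≤ J → w ≠ u → w ≠ v →
    (u ≠ v → ¬∃ i, ∀ r, r ≠ i → u r = v r ∧ w r = u r) →
    ∃ ζ E, 2 * e + E.card = J ∧ u ∈ AK ζ E e ∧ v ∈ AK ζ E e ∧ w ∉ AK ζ E e

/-- Preimages of largest sets of diameter `J` are again such sets. -/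
def Pre (f : (ι → α) → ι → α) (J N : ℕ) : Prop :=
  ∀ ζ E e, Ty ι α J N e → 2 * e + E.card = J →
    ∃ ζ' E' e', Ty ι α J N e' ∧ 2 * e' + E'.card = J ∧ ∀ x, f x ∈ AK ζ E e ↔ x ∈ AK ζ' E' e'

variable (ι α) in
def StmtPre : Prop :=
  ∀ (J N : ℕ) (K : Finset (ι → α)) (f : (ι → α) → ι → α), Nonempty α → MaxA ι α J N →
    (∀ x ∈ K, ∀ y ∈ K, x ≠ y → J < hammingDist x y) →
    K.card * N = Fintype.card α ^ Fintype.card ι →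
    (∀ x y, J < hammingDist x y → J < hammingDist (f x) (f y)) → Pre f J N

def Col (f : (ι → α) → ι → α) (x : ι → α) (i : ι) : Prop := ∀ a, f (update x i a) = f x

def Lin (f : (ι → α) → ι → α) (x : ι → α) (i l : ι) : Prop :=
  ∃ τ : Perm α, ∀ a, f (update x i a) = update (f x) l (τ a)

def Clq (f : (ι → α) → ι → α) (J : ℕ) (x : ι → α) (i : ι) : Prop :=
  ∀ a a', a ≠ a' → J < hammingDist (f (update x i a)) (f (update x i a'))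

structure TriP (f : (ι → α) → ι → α) (J : ℕ) : Prop where
  tri : ∀ x i, Col f x i ∨ (∃ l, Lin f x i l) ∨ Clq f J x i
  inj : ∀ x i i' l, Lin f x i l → Lin f x i' l → i = i'
  move : ∀ x i j l b, Col f x j → Lin f x i l →
    Lin f (update x j b) i l ∨ Clq f J (update x j b) i

variable (ι α) in
def StmtTri : Prop :=
  3 ≤ Fintype.card α → ∀ (J N e : ℕ) (f : (ι → α) → ι → α), Pre f J N → Ty ι α J N e → 1 ≤ e →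
    TriP f J

variable (ι α) in
def StmtCount : Prop :=
  3 ≤ Fintype.card α → ∀ (J N e : ℕ) (f : (ι → α) → ι → α), MaxA ι α J N → Pre f J N →
    Ty ι α J N e → 1 ≤ e → TriP f J →
    ∀ x, (∀ i, ∃ l, Lin f x i l) ∨ ∀ i l, ¬Lin f x i l

variable (ι α) in
def StmtB1 : Prop :=
  3 ≤ Fintype.card α → ∀ (J N e : ℕ) (f : (ι → α) → ι → α), MaxA ι α J N → Pre f J N →
    Ty ι α J N e → 1 ≤ e → Unif f

def nu (m k J e : ℕ) : ℕ := (m + e - J - 1).choose e * (k - 1) ^ (J - e)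

variable (ι α) in
def StmtFar : Prop :=
  3 ≤ Fintype.card α → (∀ (J e : ℕ) (ζ : ι → α) (E : Finset ι) (y : ι → α), 2 ≤ J →
    2 * e + E.card = J → J + Fintype.card α * e + 1 ≤ Fintype.card ι + 2 * e →
    (dev ζ E y = e + 1 → (∀ b ∈ AK ζ E e, hammingDist y b ≤ J + 1) ∧
      ((AK ζ E e).filter fun b => J < hammingDist y b).card =
        nu (Fintype.card ι) (Fintype.card α) J e) ∧
    (e + 2 ≤ dev ζ E y → nu (Fintype.card ι) (Fintype.card α) J e <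
      ((AK ζ E e).filter fun b => J < hammingDist y b).card)) ∧
  ∀ m k J e : ℕ, 3 ≤ k → 2 * (e + 1) ≤ J → J + k * (e + 1) + 1 = m + 2 * (e + 1) →
    nu m k J e = nu m k J (e + 1)

variable (ι α) in
/-- Connectivity of the pairs at distance `J + 1`. -/
def StmtConn : Prop :=
  3 ≤ Fintype.card α → ∀ (J e : ℕ) (p : (ι → α) → (ι → α) → Prop), 1 ≤ e → 2 * e ≤ J →
    J + 1 ≤ Fintype.card ι → (∀ x y, p x y → p y x) →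
    (∀ ζ E x, 2 * e + E.card = J → dev ζ E x = e + 1 → ∀ a ∈ AK ζ E e, ∀ a' ∈ AK ζ E e,
      hammingDist x a = J + 1 → hammingDist x a' = J + 1 → p x a → p x a') →
    ∀ x y x' y', hammingDist x y = J + 1 → hammingDist x' y' = J + 1 → p x y → p x' y'

variable (ι α) in
def StmtB2 : Prop :=
  3 ≤ Fintype.card α → ∀ (J N e : ℕ) (f : (ι → α) → ι → α), MaxA ι α J N → Ty ι α J N e →
    1 ≤ e → (∀ x y, x ≠ y → hammingDist x y ≤ J → f x ≠ f y ∧ hammingDist (f x) (f y) ≤ J) →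
    Unif f ∨ ∀ x y, hammingDist x y = J + 1 → hammingDist (f x) (f y) = J + 1

end Pool.Agent.MP_92191b_al.K6
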