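import Pool.Agent.MP_92191b_al.Main
import Pool.Agent.MP_92191b_al.K6.Basic

/-! From the structure theorem to uniformity of non-synchronized maps. -/

set_option linter.unusedSectionVars false

namespace Pool.Agent.MP_92191b_al.K6

open Finset Function Equiv

variable {ι α : Type} [Fintype ι] [DecidableEq ι] [Fintype α] [DecidableEq α]

namespace Glue

/-- A pair of codes separated by a set of distances. -/
theorem sep_of {S : Set ℕ} {C D : Finset (ι → α)}
    (hC : ∀ y ∈ C, ∀ z ∈ C, y ≠ z → hammingDist y z ∈ S)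
    (hD : ∀ y ∈ D, ∀ z ∈ D, y ≠ z → hammingDist y z ∉ S) : Sep C D := by
  intro c hc c' hc' d hd d' hd' he
  by_contra hne
  refine hD d hd d' hd' (fun h => hne ?_) (he ▸ hC c hc c' hc' hne)
  rw [h, hammingDist_self] at he
  exact hammingDist_eq_zero.1 he

/-- The structure theorem in terms of a set of distances. -/
theorem conc (hA : StmtA ι α) (hT : StmtTy ι α) (hk : 5 ≤ Fintype.card α) {S : Set ℕ}
    (h1 : 1 ∉ S) {C D : Finset (ι → α)} (hC : ∀ y ∈ C, ∀ z ∈ C, y ≠ z → hammingDist y z ∈ S)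
    (hD : ∀ y ∈ D, ∀ z ∈ D, y ≠ z → hammingDist y z ∉ S) (h2 : 2 ≤ C.card)
    (hb : Fintype.card α ^ Fintype.card ι ≤ C.card * D.card) :
    ∃ ζ E e, D = AK ζ E e ∧ E.card + Fintype.card α * e + 1 ≤ Fintype.card ι ∧
      2 * e + E.card + 1 ∈ S ∧ ∀ s, 1 ≤ s → s ≤ 2 * e + E.card → s ∉ S := by
  obtain ⟨ζ, E, e, rfl, hr, c, hc, c', hc', hd⟩ := hA hk C D ⟨sep_of hC hD, hb,
    fun c hc c' hc' he => h1 (he ▸ hC c hc c' hc' (hammingDist_pos.1 (by omega)))⟩ h2
  refine ⟨ζ, E, e, rfl, hr, hd ▸ hC c hc c' hc' (hammingDist_pos.1 (by omega)),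
    fun s hs1 hs => ?_⟩
  obtain ⟨x, hx, y, hy, rfl⟩ := hT.2.2.1 (by omega) ζ E e s (by nlinarith) hs
  exact hD x hx y hy (hammingDist_pos.1 hs1)

theorem maxA (hC : StmtCnt ι α) (hA : StmtA ι α) (hT : StmtTy ι α) (hk : 5 ≤ Fintype.card α)
    {C : Finset (ι → α)} {J N : ℕ} (hJ : 1 ≤ J)
    (hd : ∀ y ∈ C, ∀ z ∈ C, y ≠ z → J < hammingDist y z) (h2 : 2 ≤ C.card)
    (hN : C.card * N = Fintype.card α ^ Fintype.card ι) : MaxA ι α J N := by
  have hF : ∀ F : Finset (ι → α), Diam F J →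
      ∀ y ∈ F, ∀ z ∈ F, y ≠ z → hammingDist y z ∉ {s | J < s} :=
    fun F hF y hy z hz _ h => absurd (hF y hy z hz) (not_le.2 h)
  refine ⟨fun F h => ?_, fun F h hc => ?_⟩
  · have := hC.2.1 C F (sep_of (S := {s | J < s}) hd (hF F h))
    rw [← hN] at this
    exact Nat.le_of_mul_le_mul_left this (by omega)
  · obtain ⟨ζ, E, e, rfl, hr, h3, -⟩ := conc hA hT hk (S := {s | J < s})
      (fun h' => absurd hJ (not_le.2 h')) hd (hF F h) h2 (by rw [hc, hN])
    obtain ⟨x, hx, y, hy, hxy⟩ := hT.2.2.1 (by omega) ζ E e _ (by nlinarith) le_rfl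
    have h4 := h x hx y hy
    have h5 : J < 2 * e + E.card + 1 := h3
    have h6 : 2 * e + E.card = J := by omega
    exact ⟨ζ, E, e, h6, ⟨by omega, by omega, fun ζ' E' h7 =>
      (hT.1 ζ' ζ E' E e (by omega)).trans hc⟩, rfl⟩

theorem ak_zero (ζ : ι → α) (E : Finset ι) : AK ζ E 0 = cube ζ E := by
  ext x
  simp [AK, dev, mem_cube]

theorem ekr {j N : ℕ} (hM : MaxA ι α (j + 1) N) (h0 : ∀ e, Ty ι α (j + 1) N e → e = 0)
    (hN : ∃ F : Finset (ι → α), Diam F (j + 1) ∧ F.card = N) : Ekr ι α j := by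
  have key : ∀ F : Finset (ι → α), Diam F (j + 1) → F.card = N →
      ∃ ζ E, E.card = j + 1 ∧ F = cube ζ E := by
    intro F h1 h2
    obtain ⟨ζ, E, e, h3, h4, rfl⟩ := hM.eq F h1 h2
    obtain rfl := h0 e h4
    exact ⟨ζ, E, by omega, ak_zero ζ E⟩
  obtain ⟨F0, h1, h2⟩ := hN
  obtain ⟨ζ0, E0, h3, rfl⟩ := key F0 h1 h2
  rw [card_cube, h3] at h2
  intro F hF hb
  obtain ⟨ζ, E, h4, rfl⟩ := key F hF (le_antisymm (hM.le F hF) (h2 ▸ hb))
  exact ⟨E, h4, fun x hx => (cube_eq hx).symm⟩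

theorem dist_wreath (σ : ι → Perm α) (π : Perm ι) (x y : ι → α) :
    hammingDist (fun i => σ i (x (π i))) (fun i => σ i (y (π i))) = hammingDist x y := by
  simp only [hammingDist, ne_eq, EmbeddingLike.apply_eq_iff_eq]
  exact card_bij (fun i _ => π i) (fun i hi => by simpa using hi)
    (fun _ _ _ _ h => π.injective h) fun b hb => ⟨π.symm b, by simpa using hb, by simp⟩

end Glue

open Glue in
theorem glue (hC : StmtCnt ι α) (hA : StmtA ι α) (hT : StmtTy ι α) (hP : StmtPre ι α)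
    (hB1 : StmtB1 ι α) (hB2 : StmtB2 ι α) (hk : 5 ≤ Fintype.card α)
    (f : Function.End (ι → α))
    (hM : ∀ c ∈ Submonoid.closure ({g : Function.End (ι → α) |
      ∃ (σ : ι → Perm α) (π : Perm ι), g = fun x i => σ i (x (π i))} ∪ {f}),
      ¬∃ y, ∀ x, c x = y) : Unif f := by
  classical
  have : Nontrivial α := Fintype.one_lt_card_iff_nontrivial.1 (by omega)
  obtain ⟨a0⟩ : Nonempty (ι → α) := inferInstance
  set M := Submonoid.closure ({g : Function.End (ι → α) |
      ∃ (σ : ι → Perm α) (π : Perm ι), g = fun x i => σ i (x (π i))} ∪ {f}) with hMdef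
  have hG : ∀ (σ : ι → Perm α) (π : Perm ι),
      (fun x i => σ i (x (π i)) : Function.End (ι → α)) ∈ M :=
    fun σ π => Submonoid.subset_closure (Or.inl ⟨σ, π, rfl⟩)
  have hf : f ∈ M := Submonoid.subset_closure (Or.inr rfl)
  let S : Set ℕ := {d | ∀ x y : ι → α, hammingDist x y = d → ∀ c ∈ M, c x ≠ c y}
  have hS : ∀ x y : ι → α, hammingDist x y ∈ S ↔ ∀ c ∈ M, c x ≠ c y := by
    refine fun x y => ⟨fun h => h x y rfl, fun h x' y' h' c hc hne => ?_⟩
    obtain ⟨σ, π, h1, h2⟩ := exists_wreath h'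
    refine h _ (M.mul_mem hc (hG σ π)) ?_
    change c (fun i => σ i (x (π i))) = c fun i => σ i (y (π i))
    rw [h1, h2, hne]
  have hend : ∀ c ∈ M, ∀ x y, hammingDist x y ∈ S → c x ≠ c y ∧ hammingDist (c x) (c y) ∈ S :=
    fun g hg x y h => ⟨(hS x y).1 h g hg, (hS _ _).2 fun c hc => (hS x y).1 h _ (M.mul_mem hc hg)⟩
  have hge : ∀ x y : ι → α, x ≠ y → 1 ≤ hammingDist x y := fun _ _ h => hammingDist_pos.2 h
  have hex : ∃ n, ∃ c ∈ M, (univ.image c).card = n := ⟨_, 1, M.one_mem, rfl⟩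
  obtain ⟨h, hh, hcard⟩ := Nat.find_spec hex
  have hmin : ∀ c ∈ M, (univ.image h).card ≤ (univ.image c).card := fun c hc =>
    hcard ▸ Nat.find_min' hex ⟨c, hc, rfl⟩
  have hK : ∀ y ∈ univ.image h, ∀ z ∈ univ.image h, y ≠ z → hammingDist y z ∈ S := by
    intro y hy z hz hyz
    refine (hS y z).2 fun c hc he => ?_
    have h1 : (univ.image (c * h)).card < (univ.image h).card := by
      have : univ.image (c * h) = (univ.image h).image c := by
        rw [image_image]
        rfl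
      rw [this]
      exact lt_of_le_of_ne card_image_le fun h' => hyz (card_image_iff.1 h' hy hz he)
    exact absurd (hmin _ (M.mul_mem hc hh)) (not_le.2 h1)
  have hfib : ∀ c ∈ M, ∀ w, ∀ y ∈ univ.filter fun x => c x = w,
      ∀ z ∈ univ.filter fun x => c x = w, y ≠ z → hammingDist y z ∉ S := fun c hc w y hy z hz _ h' =>
    (hS y z).1 h' c hc ((mem_filter.1 hy).2.trans (mem_filter.1 hz).2.symm)
  obtain ⟨w, -, hw⟩ := exists_max_image univ (fun w => (univ.filter fun x => h x = w).card)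
    ⟨a0, mem_univ _⟩
  have hC0 := hfib h hh w
  have hKC : Fintype.card α ^ Fintype.card ι ≤
      (univ.image h).card * (univ.filter fun x => h x = w).card := by
    rw [← Fintype.card_fun, ← card_univ, mul_comm]
    exact card_le_mul_card_image _ _ fun v _ => hw v (mem_univ _)
  have hKC' := le_antisymm (hC.2.1 _ _ (sep_of hK hC0)) hKC
  set K := univ.image h with hKdef
  set C0 := univ.filter fun x => h x = w with hC0def
  by_cases h1 : 1 ∈ S
  · by_cases h2 : 2 ≤ C0.card
    swap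
    · have h3 : Fintype.card (ι → α) ≤ (univ.image f).card := by
        rw [Fintype.card_fun]
        refine hKC.trans (le_trans ?_ (hmin f hf))
        calc K.card * C0.card ≤ K.card * 1 := Nat.mul_le_mul_left _ (by omega)
          _ = K.card := mul_one _
      have h4 : Injective f := fun x y hxy =>
        card_image_iff.1 (le_antisymm card_image_le (by rwa [card_univ])) (mem_univ x)
          (mem_univ y) hxy
      have h5 : ∀ a, (univ.filter fun x => f x = f a) = {a} := fun a => by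
        ext x
        simp [h4.eq_iff]
      intro a b
      rw [h5, h5, card_singleton, card_singleton]
    have h1' : 1 ∉ Sᶜ := fun h' => h' h1
    have key : ∀ K' : Finset (ι → α), (∀ y ∈ K', ∀ z ∈ K', y ≠ z → hammingDist y z ∈ S) →
        K'.card = K.card → ∃ ζ E e, K' = AK ζ E e ∧
          E.card + Fintype.card α * e + 1 ≤ Fintype.card ι ∧ 2 * e + E.card + 1 ∉ S ∧
          ∀ s, 1 ≤ s → s ≤ 2 * e + E.card → s ∈ S := by
      intro K' h3 h4
      obtain ⟨ζ, E, e, h5, h6, h7, h8⟩ := conc hA hT hk (S := Sᶜ) h1' hC0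
        (fun y hy z hz hne h' => h' (h3 y hy z hz hne)) h2 (by rw [h4, mul_comm]; exact hKC)
      exact ⟨ζ, E, e, h5, h6, h7, fun s hs hs' => not_not.1 (h8 s hs hs')⟩
    obtain ⟨ζ, E, e, hKe, hr, hJ1, hlow⟩ := key K hK rfl
    obtain ⟨j, hj⟩ : ∃ j, 2 * e + E.card = j + 1 :=
      Nat.exists_eq_succ_of_ne_zero fun h0 => hJ1 (by rw [h0]; exact h1)
    have hKd : Diam K (j + 1) := by rw [hKe, ← hj]; exact hT.2.1 ζ E e
    rw [hj] at hJ1 hlow
    have hMax : MaxA ι α (j + 1) K.card := maxA hC hA hT hk (by omega)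
      (fun y hy z hz hne => not_le.1 fun h' => hC0 y hy z hz hne (hlow _ (hge y z hne) h')) h2
      (by rw [mul_comm]; exact hKC')
    have hf' : ∀ x y, x ≠ y → hammingDist x y ≤ j + 1 →
        f x ≠ f y ∧ hammingDist (f x) (f y) ≤ j + 1 := by
      intro x y hne hd
      refine ⟨(hend f hf x y (hlow _ (hge x y hne) hd)).1, ?_⟩
      obtain ⟨x', hx', y', hy', hxy⟩ := hT.2.2.1 (by omega) ζ E e (hammingDist x y)
        (by nlinarith) (by omega)
      rw [← hKe] at hx' hy'
      obtain ⟨σ, π, e1, e2⟩ := exists_wreath hxy.symm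
      obtain ⟨g, hg, hgx, hgy⟩ : ∃ g ∈ M, g x' = f x ∧ g y' = f y :=
        ⟨_, M.mul_mem hf (hG σ π), congrArg f e1, congrArg f e2⟩
      obtain ⟨ζ', E', e', h5, -, h7, h8⟩ := key (K.image g) (by
        intro u hu v hv huv
        obtain ⟨u', hu', rfl⟩ := mem_image.1 hu
        obtain ⟨v', hv', rfl⟩ := mem_image.1 hv
        exact (hend g hg u' v' (hK u' hu' v' hv' fun h' => huv (by rw [h']))).2)
        (card_image_of_injOn fun u hu v hv huv => by_contra fun hne' =>
          (hend g hg u v (hK u hu v hv hne')).1 huv)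
      have h9 : 2 * e' + E'.card ≤ j + 1 := not_lt.1 fun h' => hJ1 (h8 _ (by omega) h')
      have h10 : f x ∈ K.image g := mem_image.2 ⟨x', hx', hgx⟩
      have h11 : f y ∈ K.image g := mem_image.2 ⟨y', hy', hgy⟩
      rw [h5] at h10 h11
      exact (hT.2.1 ζ' E' e' _ h10 _ h11).trans h9
    by_cases hty : ∃ e1, Ty ι α (j + 1) K.card e1 ∧ 1 ≤ e1
    · obtain ⟨e1, h3, h4⟩ := hty
      refine (hB2 (by omega) _ _ e1 f hMax h3 h4 hf').resolve_right fun h5 => hJ1 ?_
      have h6 : ∀ c ∈ M, ∀ x y, hammingDist x y = j + 1 + 1 →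
          hammingDist (c x) (c y) = j + 1 + 1 := by
        intro c hc
        induction hc using Submonoid.closure_induction with
        | mem c hc =>
          rcases hc with ⟨σ, π, rfl⟩ | rfl
          · exact fun x y hd => (dist_wreath σ π x y).trans hd
          · exact h5
        | one => exact fun x y hd => hd
        | mul c c' _ _ ih ih' => exact fun x y hd => ih _ _ (ih' x y hd)
      intro x y hd c hc he
      have := h6 c hc x y hd
      rw [he, hammingDist_self] at this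
      omega
    · exact uniform_of_small (by omega) (Glue.ekr hMax (fun e1 h3 => by
        by_contra h4
        exact hty ⟨e1, h3, by omega⟩) ⟨K, hKd, rfl⟩) (by nlinarith) hf'
  · have h2 : 2 ≤ K.card := by
      obtain ⟨x, hx⟩ : ∃ x, h x ≠ h a0 := by
        by_contra! h'
        exact hM h hh ⟨h a0, h'⟩
      exact one_lt_card.2 ⟨_, mem_image_of_mem h (mem_univ x), _,
        mem_image_of_mem h (mem_univ a0), hx⟩
    obtain ⟨ζ, E, e, hCe, hr, hJ1, hlow⟩ := conc hA hT hk h1 hK hC0 h2 hKC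
    obtain ⟨j, hj⟩ : ∃ j, 2 * e + E.card = j + 1 :=
      Nat.exists_eq_succ_of_ne_zero fun h0 => h1 (by rw [h0] at hJ1; exact hJ1)
    have hCd : Diam C0 (j + 1) := by rw [hCe, ← hj]; exact hT.2.1 ζ E e
    rw [hj] at hJ1 hlow
    have hKd : ∀ y ∈ K, ∀ z ∈ K, y ≠ z → j + 1 < hammingDist y z :=
      fun y hy z hz hne => not_le.1 fun h' => hlow _ (hge y z hne) h' (hK y hy z hz hne)
    have hMax : MaxA ι α (j + 1) C0.card := maxA hC hA hT hk (by omega) hKd h2 hKC'
    have hhigh : ∀ x y : ι → α, j + 1 < hammingDist x y → hammingDist x y ∈ S := by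
      intro x y hd
      refine (hS x y).2 fun c hc he => ?_
      have hg := M.mul_mem hh hc
      have hle : ∀ v, (univ.filter fun x => (h * c) x = v).card ≤ C0.card := fun v => by
        have := hC.2.1 _ _ (sep_of hK (hfib _ hg v))
        rw [← hKC'] at this
        exact Nat.le_of_mul_le_mul_left this (by omega)
      have hsum : ∑ v ∈ K, (univ.filter fun x => (h * c) x = v).card = ∑ _v ∈ K, C0.card := by
        rw [sum_const, smul_eq_mul, hKC', ← Fintype.card_fun, ← card_univ]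
        exact (card_eq_sum_card_fiberwise fun x _ => mem_image_of_mem h (mem_univ (c x))).symm
      have heq := (sum_eq_sum_iff_of_le fun v _ => hle v).1 hsum ((h * c) x)
        (mem_image_of_mem h (mem_univ (c x)))
      obtain ⟨ζ', E', e', h5, -, -, h8⟩ := conc hA hT hk h1 hK (hfib _ hg ((h * c) x)) h2
        (by rw [heq]; exact hKC)
      have h9 : 2 * e' + E'.card ≤ j + 1 := not_lt.1 fun h' => h8 _ (by omega) h' hJ1
      have h10 : x ∈ AK ζ' E' e' := h5 ▸ mem_filter.2 ⟨mem_univ _, rfl⟩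
      have h11 : y ∈ AK ζ' E' e' := h5 ▸ mem_filter.2 ⟨mem_univ _, congrArg h he.symm⟩
      have := hT.2.1 ζ' E' e' _ h10 _ h11
      omega
    have hf' : ∀ x y, j + 1 < hammingDist x y → j + 1 < hammingDist (f x) (f y) := by
      intro x y hd
      obtain ⟨h3, h4⟩ := hend f hf x y (hhigh x y hd)
      exact not_le.1 fun h' => hlow _ (hge _ _ h3) h' h4
    by_cases hty : ∃ e1, Ty ι α (j + 1) C0.card e1 ∧ 1 ≤ e1
    · obtain ⟨e1, h3, h4⟩ := hty
      exact hB1 (by omega) _ _ e1 f hMax (hP _ _ K f inferInstance hMax hKd hKC' hf') h3 h4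
    · exact uniform_of_large (Glue.ekr hMax (fun e1 h3 => by
        by_contra h4
        exact hty ⟨e1, h3, by omega⟩) ⟨C0, hCd, rfl⟩) (by nlinarith) hf'

end Pool.Agent.MP_92191b_al.K6
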