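import Pool.Agent.MP_92191b_al.K6.Basic

/-! The centred lemma in four coordinates. -/

set_option linter.unusedSectionVars false

namespace Pool.Agent.MP_92191b_al.K6

open Finset Function Equiv

variable {ι α : Type} [Fintype ι] [DecidableEq ι] [Fintype α] [DecidableEq α]

namespace T23

def S123 (W : W4 α) (z : α) : W3 α := fun c1 c2 c3 t1 t2 t3 =>
  ∃ c4, W c1 c2 c3 c4 t1 t2 t3 (nz c4 z)

def S143 (W : W4 α) (z : α) : W3 α := fun c1 c4 c3 t1 t4 t3 =>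
  ∃ c2, W c1 c2 c3 c4 t1 (nz c2 z) t3 t4

def S341 (W : W4 α) (z : α) : W3 α := fun c3 c4 c1 t3 t4 t1 =>
  ∃ c2, W c1 c2 c3 c4 t1 (nz c2 z) t3 t4

def S214 (W : W4 α) (z : α) : W3 α := fun c2 c1 c4 t2 t1 t4 =>
  ∃ c3, W c1 c2 c3 c4 t1 t2 (nz c3 z) t4

def P24 (W : W4 α) (z z' : α) : W2 α := fun c2 c4 t2 t4 =>
  ∃ c1 c3, W c1 c2 c3 c4 (nz c1 z) t2 (nz c3 z') t4

variable {W : W4 α}

theorem s123 (h : CSec4 W) (z : α) : CSec3 (S123 W z) where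
  sep c1 c2 c3 t1 t2 t3 c1' c2' c3' t1' t2' t3' := by
    rintro ⟨c, w⟩ ⟨c', w'⟩ h1 h2
    have a := nz_le_nq c c' z
    have b := nq_le_bo c c' z
    have := h.sep _ _ _ _ _ _ _ _ _ _ _ _ _ _ _ _ w w' (by omega) (by omega)
    tauto
  ex z1 z2 z3 := by
    obtain ⟨c1, c2, c3, c4, w⟩ := h.ex z1 z2 z3 z
    exact ⟨c1, c2, c3, c4, w⟩
  ex12 z1 z2 z3 := by
    obtain ⟨c1, c2, c3, c4, w⟩ := h.ex12 z1 z2 z3 z
    exact ⟨c1, c2, c3, c4, w⟩

theorem s143 (h : CSec4 W) (z : α) : CSec3 (S143 W z) where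
  sep c1 c2 c3 t1 t2 t3 c1' c2' c3' t1' t2' t3' := by
    rintro ⟨c, w⟩ ⟨c', w'⟩ h1 h2
    have a := nz_le_nq c c' z
    have b := nq_le_bo c c' z
    have := h.sep _ _ _ _ _ _ _ _ _ _ _ _ _ _ _ _ w w' (by omega) (by omega)
    tauto
  ex z1 z2 z3 := by
    obtain ⟨c1, c2, c3, c4, w⟩ := h.ex z1 z z3 z2
    exact ⟨c1, c4, c3, c2, w⟩
  ex12 z1 z2 z3 := by
    obtain ⟨c1, c2, c3, c4, w⟩ := h.ex14 z1 z z3 z2
    exact ⟨c1, c4, c3, c2, w⟩

theorem s341 (h : CSec4 W) (z : α) : CSec3 (S341 W z) where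
  sep c1 c2 c3 t1 t2 t3 c1' c2' c3' t1' t2' t3' := by
    rintro ⟨c, w⟩ ⟨c', w'⟩ h1 h2
    have a := nz_le_nq c c' z
    have b := nq_le_bo c c' z
    have := h.sep _ _ _ _ _ _ _ _ _ _ _ _ _ _ _ _ w w' (by omega) (by omega)
    tauto
  ex z1 z2 z3 := by
    obtain ⟨c1, c2, c3, c4, w⟩ := h.ex z3 z z1 z2
    exact ⟨c3, c4, c1, c2, w⟩
  ex12 z1 z2 z3 := by
    obtain ⟨c1, c2, c3, c4, w⟩ := h.ex34 z3 z z1 z2
    exact ⟨c3, c4, c1, c2, w⟩

theorem s214 (h : CSec4 W) (z : α) : CSec3 (S214 W z) where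
  sep c1 c2 c3 t1 t2 t3 c1' c2' c3' t1' t2' t3' := by
    rintro ⟨c, w⟩ ⟨c', w'⟩ h1 h2
    have a := nz_le_nq c c' z
    have b := nq_le_bo c c' z
    have := h.sep _ _ _ _ _ _ _ _ _ _ _ _ _ _ _ _ w w' (by omega) (by omega)
    tauto
  ex z1 z2 z3 := by
    obtain ⟨c1, c2, c3, c4, w⟩ := h.ex z2 z1 z z3
    exact ⟨c2, c1, c4, c3, w⟩
  ex12 z1 z2 z3 := by
    obtain ⟨c1, c2, c3, c4, w⟩ := h.ex12 z2 z1 z z3
    exact ⟨c2, c1, c4, c3, w⟩

/-- Two words of the plane section which agree there are equal. -/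
theorem p24_eq (h : CSec4 W) {z z' c1 c2 c3 c4 c1' c2' c3' c4' : α} {t2 t4 t2' t4' : Bool}
    (w : W c1 c2 c3 c4 (nz c1 z) t2 (nz c3 z') t4)
    (w' : W c1' c2' c3' c4' (nz c1' z) t2' (nz c3' z') t4')
    (h1 : nq t2 t2' + nq t4 t4' ≤ nq c2 c2' + nq c4 c4')
    (h2 : nq c2 c2' + nq c4 c4' ≤ bo t2 t2' + bo t4 t4') :
    c1 = c1' ∧ c2 = c2' ∧ c3 = c3' ∧ c4 = c4' := by
  have a := nz_le_nq c1 c1' z
  have b := nq_le_bo c1 c1' z
  have a' := nz_le_nq c3 c3' z'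
  have b' := nq_le_bo c3 c3' z'
  exact h.sep _ _ _ _ _ _ _ _ _ _ _ _ _ _ _ _ w w' (by omega) (by omega)

theorem p24 (h : CSec4 W) (z z' : α) : CPlane (P24 W z z') where
  sep c1 c2 t1 t2 c1' c2' t1' t2' := by
    rintro ⟨c, d, w⟩ ⟨c', d', w'⟩ h1 h2
    have := p24_eq h w w' h1 h2
    tauto
  ex z1 z2 := by
    obtain ⟨c1, c2, c3, c4, w⟩ := h.ex z z1 z' z2
    exact ⟨c2, c4, c1, c3, w⟩

theorem tf : nq true false = 1 := by decide
theorem ft : nq false true = 1 := by decide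
theorem b00 : bo false false = 0 := by decide
theorem b01 : bo false true = 1 := by decide
theorem b10 : bo true false = 1 := by decide
theorem b11 : bo true true = 1 := by decide

theorem neither (h1 : StmtT1 α) (hk : 6 ≤ Fintype.card α) {x1 z2 x3 z4 : α}
    {φ φ' ψ ψ' : α → α} (hW : CSec4 W) (c0 : W x1 z2 x3 z4 true false true false)
    (hA : ∀ b, W x1 (φ b) b (φ' b) false (nz (φ b) z2) false (nz (φ' b) z4))
    (hB : ∀ b, W b (ψ b) x3 (ψ' b) false (nz (ψ b) z2) false (nz (ψ' b) z4))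
    {a a' : α} (ha : a ≠ x3) (hφ : φ a ≠ z2) (ha' : a' ≠ x1) (hψ' : ψ' a' ≠ z4)
    (hψ : ∀ p, p ≠ x1 → ψ p = z2) (hφ' : ∀ b, b ≠ x3 → φ' b = z4) : False := by
  obtain ⟨-, s, hs, -, h | ⟨⟨η, w⟩, -, -⟩⟩ := h1 hk (S123 W z4) x1 z2 x3 a φ ψ (s123 hW z4)
    ⟨z4, by simpa using c0⟩ (fun b => ⟨_, hA b⟩) (fun b => ⟨_, hB b⟩) ha hφ
  · exact hφ (h.2.symm.trans (hψ s hs))
  obtain ⟨hinj, s', hs', -, h | ⟨-, -, χ, hχ, l, v⟩⟩ := h1 hk (S341 W z2) x3 z4 x1 a' ψ' φ'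
    (s341 hW z2) ⟨z2, by simpa using c0⟩ (fun b => ⟨_, hB b⟩) (fun b => ⟨_, hA b⟩) ha' hψ'
  · exact hψ' (h.2.symm.trans (hφ' s' hs'))
  by_cases hη : η = z4
  · subst hη
    rw [nz_self] at w
    by_cases hl : l = z2
    · subst hl
      rw [nz_self] at v
      exact hs (hW.sep _ _ _ _ _ _ _ _ _ _ _ _ _ _ _ _ w v
        (by simp [nq_of_ne hs, nq_of_ne hχ.symm, tf, ft])
        (by simp [nq_of_ne hs, nq_of_ne hχ.symm, b00, b01, b10, b11])).1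
    · rw [nz_of_ne hl] at v
      exact hs (hW.sep _ _ _ _ _ _ _ _ _ _ _ _ _ _ _ _ w v
        (by simp [nq_of_ne hs, nq_of_ne hχ.symm, nq_of_ne (Ne.symm hl), ft])
        (by simp [nq_of_ne hs, nq_of_ne hχ.symm, nq_of_ne (Ne.symm hl), b00, b01, b11])).1
  · rw [nz_of_ne hη] at w
    have hsurj := Finite.surjective_of_injective hinj
    obtain ⟨p1, hp1⟩ := hsurj z4
    obtain ⟨p2, hp2⟩ := hsurj η
    obtain ⟨p, e1, e2, e3, e4⟩ := exists_ne4 (by omega) x1 s p1 p2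
    have f1 : ψ' p ≠ z4 := fun h => e3 (hinj (h.trans hp1.symm))
    have f2 : ψ' p ≠ η := fun h => e4 (hinj (h.trans hp2.symm))
    have u := hB p
    rw [hψ p e1, nz_self, nz_of_ne f1] at u
    exact e2 (hW.sep _ _ _ _ _ _ _ _ _ _ _ _ _ _ _ _ u w
      (by simp [nq_of_ne e2, nq_of_ne f2, ft])
      (by simp [nq_of_ne e2, nq_of_ne f2, b00, b01, b11])).1

/-- The case that both fourth letters are off the centre is impossible. -/
theorem claim2 (hCP : StmtCP α) (h1 : StmtT1 α) (hk : 6 ≤ Fintype.card α)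
    {x1 z2 x3 z4 a f f' s s' η : α} (hW : CSec4 W) (c0 : W x1 z2 x3 z4 true false true false)
    (hA : W x1 f a f' false true false true) (ha : a ≠ x3) (hf : f ≠ z2) (hf' : f' ≠ z4)
    (hs : s ≠ x1) (hs' : s' ≠ x1) (hη : η ≠ z4) (w1 : W s f a z4 true false false false)
    (w1' : W s' z2 a f' true false false false) (w2 : W s z2 a η false true false true) :
    False := by
  have pA : P24 W x1 a f f' true true := ⟨x1, a, by simpa using hA⟩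
  have v1 : W s f a z4 (nz s x1) false (nz a a) false := by simpa [nz_of_ne hs] using w1
  have v1' : W s' z2 a f' (nz s' x1) false (nz a a) false := by simpa [nz_of_ne hs'] using w1'
  have p1 : P24 W x1 a f z4 false false := ⟨s, a, v1⟩
  have hQ : Q4 (P24 W x1 a) f f' := by
    rcases hCP (by omega) _ (p24 hW x1 a) with ⟨x, y, h⟩ | h | ⟨x, y, h⟩ | ⟨x, y, h⟩ | ⟨τ, h⟩ |
      ⟨τ, h⟩ | ⟨a0, a1, x0, y0, -, -, h⟩
    · exact absurd (((h _ _ _ _).1 pA).2.trans ((h _ _ _ _).1 p1).2.symm) hf'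
    · simpa using (h _ _ _ _).1 pA
    · simpa using (h _ _ _ _).1 pA
    · obtain ⟨rfl, rfl⟩ : f = x ∧ f' = y := by simpa using (h _ _ _ _).1 pA
      exact h
    · simpa using (h _ _ _ _).1 pA
    · simpa using (h _ _ _ _).1 pA
    · simpa using (h _ _ _ _).1 pA
  have arm : ∀ v, P24 W x1 a f v false false := fun v => (hQ _ _ _ _).2 (by simp)
  have arm' : ∀ y, P24 W x1 a y f' false false := fun y => (hQ _ _ _ _).2 (by simp)
  choose ξ c hξ using arm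
  choose ξ' c' hξ' using arm'
  have e : ξ z4 = s := (p24_eq hW (hξ z4) v1 (by simp) (by simp)).1
  have e' : ξ' z2 = s' := (p24_eq hW (hξ' z2) v1' (by simp) (by simp)).1
  have hS := s214 hW a
  obtain ⟨-, y, -, u1, ⟨u2, -⟩ | ⟨-, h, -⟩⟩ := h1 hk (S214 W a) f x1 f' z4 ξ ξ' hS
    ⟨a, by simpa using hA⟩ (fun b => ⟨_, hξ b⟩) (fun b => ⟨_, hξ' b⟩) hf'.symm (e ▸ hs)
  · have q0 : S214 W a z2 x1 z4 false true false := ⟨x3, by simpa [nz_of_ne ha.symm] using c0⟩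
    have q2 : S214 W a z2 s η true false true := ⟨a, by simpa using w2⟩
    have hy : y = z2 := (hS.sep _ _ _ _ _ _ _ _ _ _ _ _ u2 q0 (by simp)
      (by simpa [b00, b11] using nq_le y z2)).1
    rw [e, hy] at u1
    exact hη (hS.sep _ _ _ _ _ _ _ _ _ _ _ _ q2 u1 (by simp [nq_of_ne hη, tf])
      (by simp [nq_of_ne hη, b00, b10, b11])).2.2
  · exact hs' (e'.symm.trans (h z2 hf.symm))

theorem claim (hCP : StmtCP α) (h1 : StmtT1 α) (hk : 6 ≤ Fintype.card α)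
    {x1 z2 x3 z4 a f f' s s' η η' θ θ' : α} (hW : CSec4 W)
    (c0 : W x1 z2 x3 z4 true false true false)
    (hA : W x1 f a f' false true false true) (ha : a ≠ x3) (hf : f ≠ z2) (hf' : f' ≠ z4)
    (hs : s ≠ x1) (hs' : s' ≠ x1) (w1 : W s f a θ true false false (nz θ z4))
    (w1' : W s' θ' a f' true (nz θ' z2) false false)
    (w2 : W s z2 a η false true false (nz η z4)) (w2' : W s' η' a z4 false (nz η' z2) false true) :
    η = z4 ∧ η' = z2 := by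
  have n := nq_le s s'
  have n' := nq_le s' s
  by_cases hη : η = z4 <;> by_cases hη' : η' = z2
  · exact ⟨hη, hη'⟩
  · subst hη
    rw [nz_self] at w2
    rw [nz_of_ne hη'] at w2'
    exact absurd (hW.sep _ _ _ _ _ _ _ _ _ _ _ _ _ _ _ _ w2' w2
      (by simp [nq_of_ne hη', tf]) (by simp [nq_of_ne hη', b00, b10, b11]; omega)).2.1 hη'
  · subst hη'
    rw [nz_self] at w2'
    rw [nz_of_ne hη] at w2
    exact absurd (hW.sep _ _ _ _ _ _ _ _ _ _ _ _ _ _ _ _ w2 w2'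
      (by simp [nq_of_ne hη, tf]) (by simp [nq_of_ne hη, b00, b10, b11]; omega)).2.2.2 hη
  rw [nz_of_ne hη] at w2
  rw [nz_of_ne hη'] at w2'
  have g : f' ≠ η := by
    rintro rfl
    exact hs (hW.sep _ _ _ _ _ _ _ _ _ _ _ _ _ _ _ _ w2 hA (by simp)
      (by simp [nq_of_ne hs, nq_of_ne hf.symm, b00, b11])).1
  have g' : f ≠ η' := by
    rintro rfl
    exact hs' (hW.sep _ _ _ _ _ _ _ _ _ _ _ _ _ _ _ _ w2' hA (by simp)
      (by simp [nq_of_ne hs', nq_of_ne hf'.symm, b00, b11])).1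
  have hθ : θ = z4 := by
    by_contra hθ
    rw [nz_of_ne hθ] at w1
    exact hθ (hW.sep _ _ _ _ _ _ _ _ _ _ _ _ _ _ _ _ w1 w2'
      (by simp [nq_of_ne g', nq_of_ne hθ, tf, ft])
      (by simp [nq_of_ne g', nq_of_ne hθ, b00, b01, b10, b11]; omega)).2.2.2
  have hθ' : θ' = z2 := by
    by_contra hθ'
    rw [nz_of_ne hθ'] at w1'
    exact hθ' (hW.sep _ _ _ _ _ _ _ _ _ _ _ _ _ _ _ _ w1' w2
      (by simp [nq_of_ne g, nq_of_ne hθ', tf, ft])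
      (by simp [nq_of_ne g, nq_of_ne hθ', b00, b01, b10, b11]; omega)).2.1
  rw [hθ, nz_self] at w1
  rw [hθ', nz_self] at w1'
  exact (claim2 hCP h1 hk hW c0 hA ha hf hf' hs hs' hη w1 w1' w2).elim

theorem both (hCP : StmtCP α) (h1 : StmtT1 α) (hk : 6 ≤ Fintype.card α) {x1 z2 x3 z4 : α}
    {φ φ' ψ ψ' : α → α} (hW : CSec4 W) (c0 : W x1 z2 x3 z4 true false true false)
    (hA : ∀ b, W x1 (φ b) b (φ' b) false (nz (φ b) z2) false (nz (φ' b) z4))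
    (hB : ∀ b, W b (ψ b) x3 (ψ' b) false (nz (ψ b) z2) false (nz (ψ' b) z4))
    (e1 : ∃ a, a ≠ x3 ∧ φ a ≠ z2) (e2 : ∃ a, a ≠ x1 ∧ ψ' a ≠ z4)
    (e3 : ∃ a, a ≠ x1 ∧ ψ a ≠ z2) (e4 : ∃ a, a ≠ x3 ∧ φ' a ≠ z4) : False := by
  have k1 := fun a => h1 hk (S123 W z4) x1 z2 x3 a φ ψ (s123 hW z4)
    ⟨z4, by simpa using c0⟩ (fun b => ⟨_, hA b⟩) (fun b => ⟨_, hB b⟩)
  have k2 := fun a => h1 hk (S143 W z2) x1 z4 x3 a φ' ψ' (s143 hW z2)
    ⟨z2, by simpa using c0⟩ (fun b => ⟨_, hA b⟩) (fun b => ⟨_, hB b⟩)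
  have i1 : Injective φ := by
    obtain ⟨a, h, h'⟩ := e1
    exact (k1 a h h').1
  have i2 : Injective φ' := by
    obtain ⟨a, h, h'⟩ := e4
    exact (k2 a h h').1
  have key : ∀ a, a ≠ x3 → φ a ≠ z2 → φ' a ≠ z4 → ∃ s s', W s z2 a z4 false true false false ∧
      W s' z2 a z4 false false false true ∧ ψ' s' = φ' a := by
    intro a ha hf hf'
    obtain ⟨-, s, hs, ⟨θ, w1⟩, ⟨⟨η, w2⟩, -⟩ | ⟨-, h, -⟩⟩ := k1 a ha hf
    swap
    · obtain ⟨p, hp, hp'⟩ := e3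
      exact absurd (h p hp) hp'
    obtain ⟨-, s', hs', ⟨θ', w1'⟩, ⟨⟨η', w2'⟩, e⟩ | ⟨-, h, -⟩⟩ := k2 a ha hf'
    swap
    · obtain ⟨p, hp, hp'⟩ := e2
      exact absurd (h p hp) hp'
    have hA' := hA a
    rw [nz_of_ne hf, nz_of_ne hf'] at hA'
    obtain ⟨rfl, rfl⟩ := claim hCP h1 hk hW c0 hA' ha hf hf' hs hs' w1 w1' w2 w2'
    rw [nz_self] at w2 w2'
    exact ⟨s, s', w2, w2', e⟩
  obtain ⟨p1, hp1⟩ := Finite.surjective_of_injective i1 z2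
  obtain ⟨p2, hp2⟩ := Finite.surjective_of_injective i2 z4
  have good : ∀ a, a ≠ x3 → a ≠ p1 → a ≠ p2 → ∃ s s', W s z2 a z4 false true false false ∧
      W s' z2 a z4 false false false true ∧ ψ' s' = φ' a := fun a h h' h'' =>
    key a h (fun e => h' (i1 (e.trans hp1.symm))) fun e => h'' (i2 (e.trans hp2.symm))
  obtain ⟨a, a1, a2, a3⟩ := exists_ne3 (by omega) x3 p1 p2
  obtain ⟨b, b1, b2, b3, b4⟩ := exists_ne4 (by omega) x3 p1 p2 a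
  obtain ⟨c, c1, c2, c3, c4, c5⟩ := exists_ne5 hk x3 p1 p2 a b
  obtain ⟨s, -, w, -, -⟩ := good a a1 a2 a3
  obtain ⟨-, sb, -, wb, eb⟩ := good b b1 b2 b3
  obtain ⟨-, sc, -, wc, ec⟩ := good c c1 c2 c3
  have same : ∀ d t, d ≠ a → W t z2 d z4 false false false true → t = s := by
    intro d t hd u
    by_contra ht
    exact ht (hW.sep _ _ _ _ _ _ _ _ _ _ _ _ _ _ _ _ u w
      (by simp [nq_of_ne hd, nq_of_ne ht, tf, ft])
      (by simp [nq_of_ne hd, nq_of_ne ht, b00, b01, b10])).1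
  rw [same b sb b4 wb] at eb
  rw [same c sc c4 wc] at ec
  exact c5 (i2 (ec.symm.trans eb))

end T23

theorem t23 (hCP : StmtCP α) (h1 : StmtT1 α) : StmtT23 α := by
  intro hk W x1 z2 x3 z4 φ φ' ψ ψ' hW c0 hA hB e1 e2 hiff
  by_cases e3 : ∃ a, a ≠ x1 ∧ ψ a ≠ z2
  · exact T23.both hCP h1 hk hW c0 hA hB e1 e2 e3 (hiff.1 e3)
  · have e4 := mt hiff.2 e3
    push Not at e3 e4
    obtain ⟨a, ha, hφ⟩ := e1
    obtain ⟨a', ha', hψ'⟩ := e2
    exact T23.neither h1 hk hW c0 hA hB ha hφ ha' hψ' e3 e4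

end Pool.Agent.MP_92191b_al.K6
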